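import Mathlib

set_option autoImplicit false

namespace Pool.Agent.P.MP_1ac4dc_an

open Finset Filter Topology MeasureTheory

/-- `g` acts on test sequences like the moment sequence of a signed measure on `[0,1]`
of total variation at most `θ`. -/
def Good (g : ℕ → ℝ) (θ : ℝ) : Prop :=
  ∀ (e : ℕ → ℝ) (B : ℝ), Summable (fun k => |e k|) →
    (∀ u : ℝ, 0 ≤ u → u ≤ 1 → |∑' k, u ^ (2 * k) * e k| ≤ B) → |∑' k, g k * e k| ≤ θ * B

theorem Good.bound {g : ℕ → ℝ} {θ : ℝ} (h : Good g θ) (k : ℕ) : |g k| ≤ θ := by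
  have h1 := h (fun i => if i = k then 1 else 0) 1 ?_ ?_
  · rw [tsum_eq_single k] at h1
    · simpa using h1
    · intro b hb; simp [hb]
  · apply summable_of_ne_finset_zero (s := {k})
    intro b hb
    have : b ≠ k := by simpa using hb
    simp [this]
  · intro u hu0 hu1
    rw [tsum_eq_single k]
    · simp only [if_true, mul_one]
      rw [abs_of_nonneg (by positivity)]
      exact pow_le_one₀ hu0 hu1
    · intro b hb; simp [hb]

theorem Good.nonneg {g : ℕ → ℝ} {θ : ℝ} (h : Good g θ) : 0 ≤ θ :=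
  (abs_nonneg _).trans (h.bound 0)

theorem summable_abs_mul {g e : ℕ → ℝ} {θ : ℝ} (h : ∀ k, |g k| ≤ θ)
    (he : Summable (fun k => |e k|)) : Summable (fun k => |g k * e k|) := by
  refine Summable.of_nonneg_of_le (fun k => abs_nonneg _) (fun k => ?_) (he.mul_left θ)
  rw [abs_mul]
  exact mul_le_mul_of_nonneg_right (h k) (abs_nonneg _)

theorem summable_mul {g e : ℕ → ℝ} {θ : ℝ} (h : ∀ k, |g k| ≤ θ)
    (he : Summable (fun k => |e k|)) : Summable (fun k => g k * e k) :=
  (summable_abs_mul h he).of_abs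

theorem bound_nonneg {e : ℕ → ℝ} {B : ℝ}
    (h : ∀ u : ℝ, 0 ≤ u → u ≤ 1 → |∑' k, u ^ (2 * k) * e k| ≤ B) : 0 ≤ B :=
  (abs_nonneg _).trans (h 0 le_rfl zero_le_one)

theorem good_one : Good (fun _ => 1) 1 := by
  intro e B _ h
  simpa using h 1 zero_le_one le_rfl

theorem good_zero : Good (fun _ => 0) 0 := by
  intro e B _ h
  simp

theorem Good.mono {g : ℕ → ℝ} {θ θ' : ℝ} (h : Good g θ) (hle : θ ≤ θ') : Good g θ' := by
  intro e B he hB
  exact (h e B he hB).trans (mul_le_mul_of_nonneg_right hle (bound_nonneg hB))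

theorem Good.add {g g' : ℕ → ℝ} {θ θ' : ℝ} (h : Good g θ) (h' : Good g' θ') :
    Good (fun k => g k + g' k) (θ + θ') := by
  intro e B he hB
  have h1 := h e B he hB
  have h2 := h' e B he hB
  have : ∑' k, (g k + g' k) * e k = ∑' k, g k * e k + ∑' k, g' k * e k := by
    rw [← (summable_mul h.bound he).tsum_add (summable_mul h'.bound he)]
    congr 1; ext k; ring
  rw [this]
  calc _ ≤ _ := abs_add_le _ _
    _ ≤ θ * B + θ' * B := add_le_add h1 h2
    _ = _ := by ring

theorem Good.smul {g : ℕ → ℝ} {θ : ℝ} (h : Good g θ) (c : ℝ) :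
    Good (fun k => c * g k) (|c| * θ) := by
  intro e B he hB
  have h1 := h e B he hB
  have : ∑' k, (c * g k) * e k = c * ∑' k, g k * e k := by
    rw [← tsum_mul_left]
    congr 1; ext k; ring
  rw [this, abs_mul, mul_assoc]
  exact mul_le_mul_of_nonneg_left h1 (abs_nonneg _)

theorem Good.neg {g : ℕ → ℝ} {θ : ℝ} (h : Good g θ) : Good (fun k => - g k) θ := by
  have := h.smul (-1)
  simpa using this

theorem Good.mul {g g' : ℕ → ℝ} {θ θ' : ℝ} (h : Good g θ) (h' : Good g' θ') :
    Good (fun k => g k * g' k) (θ * θ') := by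
  intro e B he hB
  have h1 := h (fun k => g' k * e k) (θ' * B) (summable_abs_mul h'.bound he) ?_
  · rw [mul_assoc]
    convert h1 using 3
    ext k; ring
  · intro u hu0 hu1
    have h2 := h' (fun k => u ^ (2 * k) * e k) B ?_ ?_
    · convert h2 using 3
      ext k; ring
    · refine summable_abs_mul (θ := 1) (fun k => ?_) he
      rw [abs_of_nonneg (by positivity)]
      exact pow_le_one₀ hu0 hu1
    · intro v hv0 hv1
      have h3 := hB (v * u) (by positivity) (mul_le_one₀ hv1 hu0 hu1)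
      convert h3 using 3
      ext k; rw [mul_pow]; ring

theorem Good.congr {g g' : ℕ → ℝ} {θ : ℝ} (h : Good g θ) (hg : ∀ k, g k = g' k) : Good g' θ := by
  have : g = g' := funext hg
  rwa [← this]

theorem good_limit {g : ℕ → ℕ → ℝ} {G : ℕ → ℝ} {θ : ℝ} (h : ∀ N, Good (g N) θ)
    (hlim : ∀ k, Tendsto (fun N => g N k) atTop (𝓝 (G k))) : Good G θ := by
  intro e B he hB
  have ht : Tendsto (fun N => ∑' k, g N k * e k) atTop (𝓝 (∑' k, G k * e k)) := by
    refine tendsto_tsum_of_dominated_convergence (bound := fun k => θ * |e k|) (he.mul_left θ)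
      (fun k => (hlim k).mul_const _) (Eventually.of_forall fun N k => ?_)
    rw [Real.norm_eq_abs, abs_mul]
    exact mul_le_mul_of_nonneg_right ((h N).bound k) (abs_nonneg _)
  exact le_of_tendsto' ht.abs (fun N => h N e B he hB)

theorem good_prod {ι : Type*} (s : Finset ι) (ε : ι → ℕ → ℝ) (τ : ι → ℝ)
    (h : ∀ i ∈ s, Good (ε i) (τ i)) :
    Good (fun k => ∏ i ∈ s, (1 - ε i k) - 1) (∏ i ∈ s, (1 + τ i) - 1) := by
  classical
  induction s using Finset.induction_on with
  | empty => simpa using good_zero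
  | insert a s ha ih =>
    have h1 := ih (fun i hi => h i (mem_insert_of_mem hi))
    have h2 := h a (mem_insert_self _ _)
    have h3 := (h1.add (h2.mul h1).neg).add h2.neg
    refine (h3.congr (fun k => ?_)).mono (le_of_eq ?_)
    · rw [prod_insert ha]; ring
    · rw [prod_insert ha]; ring

theorem integral_aux (p : ℕ) : ∫ s in Set.Ioc (0 : ℝ) 1, s ^ p = 1 / (p + 1) := by
  rw [← intervalIntegral.integral_of_le zero_le_one, integral_pow]
  simp

theorem good_frac (m j : ℕ) (hj : 1 ≤ j) : Good (fun k => (j : ℝ) / (m * k + j)) 1 := by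
  intro e B he hB
  obtain ⟨i, rfl⟩ : ∃ i, j = i + 1 := ⟨j - 1, by omega⟩
  set F : ℕ → ℝ → ℝ := fun k s => (2 * ((i : ℝ) + 1) * e k) * s ^ (2 * m * k + 2 * i + 1) with hF
  have hint : ∀ k, Integrable (F k) (volume.restrict (Set.Ioc (0 : ℝ) 1)) := by
    intro k
    apply Continuous.integrableOn_Ioc
    simp only [hF]
    fun_prop
  have hval : ∀ k, ∫ s in Set.Ioc (0 : ℝ) 1, F k s
      = ((i + 1 : ℕ) : ℝ) / (m * k + ((i + 1 : ℕ) : ℝ)) * e k := by
    intro k
    simp only [hF]
    rw [integral_const_mul, integral_aux]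
    push_cast
    field_simp
    ring
  have hnorm : ∀ k, ∫ s in Set.Ioc (0 : ℝ) 1, ‖F k s‖ ≤ (2 * ((i : ℝ) + 1)) * |e k| := by
    intro k
    have : ∫ s in Set.Ioc (0 : ℝ) 1, ‖F k s‖ ≤
        ∫ s in Set.Ioc (0 : ℝ) 1, (2 * ((i : ℝ) + 1)) * |e k| := by
      apply setIntegral_mono_on (hint k).norm (Continuous.integrableOn_Ioc continuous_const)
        measurableSet_Ioc
      intro s hs
      simp only [hF]
      rw [Real.norm_eq_abs, abs_mul, abs_mul, abs_of_nonneg (by positivity : (0 : ℝ) ≤ 2 * (i + 1))]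
      have h1 : |s ^ (2 * m * k + 2 * i + 1)| ≤ 1 := by
        rw [abs_of_nonneg (pow_nonneg hs.1.le _)]
        exact pow_le_one₀ hs.1.le hs.2
      calc _ ≤ 2 * ((i : ℝ) + 1) * |e k| * 1 := by gcongr
        _ = _ := by ring
    simpa using this
  have hsum : Summable (fun k => ∫ s in Set.Ioc (0 : ℝ) 1, ‖F k s‖) := by
    refine Summable.of_nonneg_of_le (fun k => integral_nonneg (fun _ => norm_nonneg _)) hnorm
      (he.mul_left _)
  have hs := hasSum_integral_of_summable_integral_norm hint hsum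
  simp only [hval] at hs
  rw [hs.tsum_eq]
  have hb : ‖∫ s in Set.Ioc (0 : ℝ) 1, ∑' k, F k s‖ ≤
      ∫ s in Set.Ioc (0 : ℝ) 1, (2 * ((i : ℝ) + 1) * B) * s ^ (2 * i + 1) := by
    apply norm_integral_le_of_norm_le
    · apply Continuous.integrableOn_Ioc
      fun_prop
    · rw [ae_restrict_iff' measurableSet_Ioc]
      refine Eventually.of_forall fun s hs => ?_
      have h1 : ∑' k, F k s
          = (2 * ((i : ℝ) + 1) * s ^ (2 * i + 1)) * ∑' k, (s ^ m) ^ (2 * k) * e k := by
        rw [← tsum_mul_left]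
        congr 1; ext k
        simp only [hF]
        ring
      have h2 := hB (s ^ m) (pow_nonneg hs.1.le _) (pow_le_one₀ hs.1.le hs.2)
      have h3 : 0 ≤ s ^ (2 * i + 1) := pow_nonneg hs.1.le _
      rw [h1, Real.norm_eq_abs, abs_mul, abs_of_nonneg (by positivity)]
      calc _ ≤ 2 * ((i : ℝ) + 1) * s ^ (2 * i + 1) * B := by gcongr
        _ = _ := by ring
  rw [integral_const_mul, integral_aux] at hb
  rw [← Real.norm_eq_abs]
  refine hb.trans (le_of_eq ?_)
  push_cast
  field_simp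
  ring

end Pool.Agent.P.MP_1ac4dc_an
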