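import Mathlib
import Pool.Agent.P.MP_1ac4dc_an.Good

set_option autoImplicit false

namespace Pool.Agent.P.MP_1ac4dc_an

open Finset Filter Topology

noncomputable def kap (m : ℕ) : ℝ := ((m : ℝ) + 1) ^ (m + 1) / (4 * (m : ℝ) ^ m)

noncomputable def mu (m k : ℕ) : ℝ :=
  ((Nat.factorial (2 * k) : ℝ) * (Nat.factorial (m * k) : ℝ)) /
    ((Nat.factorial k : ℝ) * (Nat.factorial ((m + 1) * k) : ℝ)) * kap m ^ k

theorem kap_pos {m : ℕ} (hm : 1 ≤ m) : 0 < kap m := by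
  have : (0 : ℝ) < m := by exact_mod_cast hm
  unfold kap; positivity

theorem mu_pos {m : ℕ} (hm : 1 ≤ m) (k : ℕ) : 0 < mu m k := by
  have := kap_pos hm
  unfold mu; positivity

theorem mu_zero (m : ℕ) : mu m 0 = 1 := by simp [mu]

theorem fact_add (n p : ℕ) :
    (Nat.factorial (n + p) : ℝ) = (Nat.factorial n : ℝ) * ∏ i ∈ range p, ((n : ℝ) + i + 1) := by
  induction p with
  | zero => simp
  | succ p ih =>
    rw [← add_assoc, Nat.factorial_succ, prod_range_succ]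
    push_cast
    rw [ih]; ring

noncomputable def Q (n : ℕ) (x : ℝ) : ℝ := ∏ i ∈ range n, (x + ((i : ℝ) + 1) / n)

noncomputable def R (n r : ℕ) (x : ℝ) : ℝ :=
  ∏ j ∈ range r, ((x + ((j : ℝ) + 1) / n) * (x + 1 - ((j : ℝ) + 1) / n))

theorem fact_step (n k : ℕ) (hn : 1 ≤ n) :
    (Nat.factorial (n * (k + 1)) : ℝ) = (Nat.factorial (n * k) : ℝ) * ((n : ℝ) ^ n * Q n k) := by
  have hn' : (n : ℝ) ≠ 0 := by
    have : (0 : ℝ) < n := by exact_mod_cast hn
    exact this.ne'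
  rw [mul_add, mul_one, fact_add]
  congr 1
  unfold Q
  have : (n : ℝ) ^ n = ∏ _i ∈ range n, (n : ℝ) := by simp
  rw [this, ← prod_mul_distrib]
  refine prod_congr rfl fun i _ => ?_
  push_cast
  field_simp
  ring

theorem Q_pos (n : ℕ) {x : ℝ} (hx : 0 ≤ x) : 0 < Q n x := by
  unfold Q
  refine prod_pos fun i hi => ?_
  have : (0 : ℝ) < n := by
    have := mem_range.1 hi
    exact_mod_cast (by omega : 0 < n)
  positivity

theorem mu_succ {m : ℕ} (hm : 1 ≤ m) (k : ℕ) :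
    mu m (k + 1) = mu m k * (((k : ℝ) + 1 / 2) * Q m k / Q (m + 1) k) := by
  have hm' : (0 : ℝ) < m := by exact_mod_cast hm
  have hQ := Q_pos (m + 1) (x := k) (by positivity)
  unfold mu
  rw [fact_step m k hm, fact_step (m + 1) k (by omega), Nat.factorial_succ k,
    show 2 * (k + 1) = 2 * k + 1 + 1 by ring, Nat.factorial_succ, Nat.factorial_succ, pow_succ (kap m)]
  have h1 : (Nat.factorial k : ℝ) ≠ 0 := by positivity
  have h2 : (Nat.factorial ((m + 1) * k) : ℝ) ≠ 0 := by positivity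
  have hk : kap m = ((m : ℝ) + 1) ^ (m + 1) / (4 * (m : ℝ) ^ m) := rfl
  generalize kap m ^ k = K
  rw [hk]
  push_cast
  field_simp
  ring

theorem prod_pair (f : ℕ → ℝ) (r c : ℕ) :
    ∏ i ∈ range (r + c + r), f i =
      (∏ j ∈ range r, (f j * f (r + c + (r - 1 - j)))) * ∏ i ∈ range c, f (r + i) := by
  rw [prod_range_add, prod_range_add, prod_mul_distrib,
    prod_range_reflect (fun j => f (r + c + j)) r]
  ring

theorem Q_odd (r : ℕ) (x : ℝ) : Q (2 * r + 1) x = (x + 1) * R (2 * r + 1) r x := by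
  unfold Q R
  have h := prod_pair (fun i => x + ((i : ℝ) + 1) / ((2 * r + 1 : ℕ) : ℝ)) r 0
  have hn : ((2 * r + 1 : ℕ) : ℝ) ≠ 0 := by positivity
  rw [show r + 0 + r = 2 * r by ring] at h
  rw [prod_range_succ, h]
  simp only [range_zero, prod_empty, mul_one]
  rw [mul_comm]
  congr 1
  · push_cast at hn ⊢
    field_simp
  · refine prod_congr rfl fun j hj => ?_
    have hj' := mem_range.1 hj
    congr 1
    obtain ⟨d, rfl⟩ : ∃ d, r = j + 1 + d := ⟨r - (j + 1), by omega⟩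
    rw [show j + 1 + d - 1 - j = d by omega]
    push_cast at hn ⊢
    field_simp
    ring

theorem Q_even (r : ℕ) (x : ℝ) :
    Q (2 * r + 2) x = (x + 1) * (x + 1 / 2) * R (2 * r + 2) r x := by
  unfold Q R
  have h := prod_pair (fun i => x + ((i : ℝ) + 1) / ((2 * r + 2 : ℕ) : ℝ)) r 1
  have hn : ((2 * r + 2 : ℕ) : ℝ) ≠ 0 := by positivity
  rw [show 2 * r + 2 = (r + 1 + r) + 1 by ring] at *
  rw [prod_range_succ, h]
  simp only [range_one, prod_singleton, add_zero]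
  have e1 : x + (((r + 1 + r : ℕ) : ℝ) + 1) / ((r + 1 + r + 1 : ℕ) : ℝ) = x + 1 := by
    push_cast at hn ⊢
    field_simp
  have e2 : x + ((r : ℝ) + 1) / ((r + 1 + r + 1 : ℕ) : ℝ) = x + 1 / 2 := by
    push_cast at hn ⊢
    field_simp
    ring
  have e3 : ∏ j ∈ range r, ((x + ((j : ℝ) + 1) / ((r + 1 + r + 1 : ℕ) : ℝ)) *
      (x + (((r + 1 + (r - 1 - j) : ℕ) : ℝ) + 1) / ((r + 1 + r + 1 : ℕ) : ℝ))) =
      ∏ j ∈ range r, ((x + ((j : ℝ) + 1) / ((r + 1 + r + 1 : ℕ) : ℝ)) *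
      (x + 1 - ((j : ℝ) + 1) / ((r + 1 + r + 1 : ℕ) : ℝ))) := by
    refine prod_congr rfl fun j hj => ?_
    have hj' := mem_range.1 hj
    congr 1
    obtain ⟨d, rfl⟩ : ∃ d, r = j + 1 + d := ⟨r - (j + 1), by omega⟩
    rw [show j + 1 + d - 1 - j = d by omega]
    push_cast at hn ⊢
    field_simp
    ring
  rw [e1, e2, e3]
  ring

theorem R_half (r : ℕ) (x : ℝ) :
    R (2 * r + 2) (r + 1) x = R (2 * r + 2) r x * (x + 1 / 2) ^ 2 := by
  unfold R
  rw [prod_range_succ]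
  congr 1
  have hn : ((2 * r + 2 : ℕ) : ℝ) ≠ 0 := by positivity
  have : ((r : ℝ) + 1) / ((2 * r + 2 : ℕ) : ℝ) = 1 / 2 := by
    push_cast at hn ⊢
    field_simp
  rw [this]; ring

theorem mu_succ' {m : ℕ} (hm : 1 ≤ m) (k : ℕ) :
    mu m (k + 1) * R (m + 1) (m / 2) k = mu m k * R m (m / 2) k := by
  have hQ := Q_pos (m + 1) (x := k) (by positivity)
  rw [mu_succ hm]
  rw [mul_assoc]
  congr 1
  rw [div_mul_eq_mul_div, div_eq_iff hQ.ne']
  rcases Nat.even_or_odd' m with ⟨r, rfl | rfl⟩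
  · obtain ⟨r, rfl⟩ : ∃ s, r = s + 1 := ⟨r - 1, by omega⟩
    rw [show 2 * (r + 1) / 2 = r + 1 by omega, Q_odd (r + 1), show 2 * (r + 1) = 2 * r + 2 by ring,
      Q_even, R_half]
    ring
  · rw [show (2 * r + 1) / 2 = r by omega, Q_odd r, show 2 * r + 1 + 1 = 2 * r + 2 by ring,
      Q_even]
    ring

noncomputable def eps (m j : ℕ) (x : ℝ) : ℝ :=
  (((j : ℝ) + 1) / m * (1 - ((j : ℝ) + 1) / m) -
      ((j : ℝ) + 1) / ((m + 1 : ℕ) : ℝ) * (1 - ((j : ℝ) + 1) / ((m + 1 : ℕ) : ℝ))) /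
    ((x + ((j : ℝ) + 1) / m) * (x + 1 - ((j : ℝ) + 1) / m))

theorem ab_facts {m j : ℕ} (hj : j < m / 2) :
    0 < ((j : ℝ) + 1) / ((m + 1 : ℕ) : ℝ) ∧
    ((j : ℝ) + 1) / ((m + 1 : ℕ) : ℝ) ≤ ((j : ℝ) + 1) / m ∧ ((j : ℝ) + 1) / m ≤ 1 / 2 := by
  have hm : (0 : ℝ) < m := by exact_mod_cast (by omega : 0 < m)
  have h2 : (2 * (j + 1) : ℝ) ≤ m := by exact_mod_cast (by omega : 2 * (j + 1) ≤ m)
  refine ⟨by positivity, ?_, ?_⟩
  · apply div_le_div_of_nonneg_left (by positivity) hm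
    push_cast; linarith
  · rw [div_le_iff₀ hm]; linarith

theorem eps_nonneg {m j : ℕ} (hj : j < m / 2) {x : ℝ} (hx : 0 ≤ x) : 0 ≤ eps m j x := by
  obtain ⟨h1, h2, h3⟩ := ab_facts hj
  unfold eps
  generalize ((j : ℝ) + 1) / ((m + 1 : ℕ) : ℝ) = b at *
  generalize ((j : ℝ) + 1) / m = a at *
  apply div_nonneg
  · nlinarith
  · apply mul_nonneg <;> linarith

theorem one_sub_eps {m j : ℕ} (hj : j < m / 2) {x : ℝ} (hx : 0 ≤ x) :
    1 - eps m j x =
      ((x + ((j : ℝ) + 1) / ((m + 1 : ℕ) : ℝ)) * (x + 1 - ((j : ℝ) + 1) / ((m + 1 : ℕ) : ℝ))) /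
      ((x + ((j : ℝ) + 1) / m) * (x + 1 - ((j : ℝ) + 1) / m)) := by
  obtain ⟨h1, h2, h3⟩ := ab_facts hj
  unfold eps
  generalize ((j : ℝ) + 1) / ((m + 1 : ℕ) : ℝ) = b at *
  generalize ((j : ℝ) + 1) / m = a at *
  have e1 : x + a ≠ 0 := by linarith
  have e2 : x + 1 - a ≠ 0 := by linarith
  field_simp
  ring

theorem eps_le_one {m j : ℕ} (hj : j < m / 2) {x : ℝ} (hx : 0 ≤ x) : eps m j x ≤ 1 := by
  obtain ⟨h1, h2, h3⟩ := ab_facts hj
  have := one_sub_eps hj hx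
  have h : 0 ≤ 1 - eps m j x := by
    rw [this]
    apply div_nonneg <;> apply mul_nonneg <;> linarith
  linarith

theorem R_pos {m : ℕ} {x : ℝ} (hx : 0 ≤ x) : 0 < R m (m / 2) x := by
  unfold R
  refine prod_pos fun j hj => ?_
  obtain ⟨h1, h2, h3⟩ := ab_facts (mem_range.1 hj)
  apply mul_pos <;> linarith

theorem mu_ratio {m : ℕ} (hm : 1 ≤ m) (k : ℕ) :
    mu m k = mu m (k + 1) * ∏ j ∈ range (m / 2), (1 - eps m j k) := by
  have h := mu_succ' hm k
  have hR := R_pos (m := m) (x := k) (by positivity)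
  have : ∏ j ∈ range (m / 2), (1 - eps m j k) = R (m + 1) (m / 2) k / R m (m / 2) k := by
    unfold R
    rw [← prod_div_distrib]
    exact prod_congr rfl fun j hj => one_sub_eps (mem_range.1 hj) (by positivity)
  rw [this, ← mul_div_assoc, h]
  field_simp

theorem mu_mono {m : ℕ} (hm : 1 ≤ m) : Monotone (mu m) := by
  refine monotone_nat_of_le_succ fun k => ?_
  rw [mu_ratio hm k]
  have h : ∏ j ∈ range (m / 2), (1 - eps m j k) ≤ 1 := by
    refine prod_le_one (fun j hj => ?_) (fun j hj => ?_)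
    · linarith [eps_le_one (mem_range.1 hj) (x := k) (by positivity)]
    · linarith [eps_nonneg (mem_range.1 hj) (x := k) (by positivity)]
  have := mu_pos hm (k + 1)
  nlinarith

theorem mu_ratio_iter {m : ℕ} (hm : 1 ≤ m) (N k : ℕ) :
    mu m k = mu m (N + k) *
      ∏ p ∈ range N ×ˢ range (m / 2), (1 - eps m p.2 ((p.1 : ℝ) + k)) := by
  rw [prod_product]
  induction N with
  | zero => simp
  | succ N ih =>
    rw [prod_range_succ, ih, mu_ratio hm (N + k), show N + 1 + k = N + k + 1 by ring]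
    push_cast
    ring

theorem good_eps {m j : ℕ} (hj : j < m / 2) (n : ℕ) :
    Good (fun k => eps m j ((n : ℝ) + k)) (eps m j n) := by
  obtain ⟨d, hd⟩ : ∃ d, m = j + 1 + (d + 1) := ⟨m - (j + 1) - 1, by omega⟩
  have h1 := good_frac m (m * n + (j + 1)) (by omega)
  have h2 := good_frac m (m * n + (d + 1)) (by omega)
  have h3 := (h1.mul h2).smul (eps m j n)
  rw [abs_of_nonneg (eps_nonneg hj (by positivity)), mul_one, mul_one] at h3
  refine h3.congr fun k => ?_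
  have hm : (0 : ℝ) < m := by exact_mod_cast (by omega : 0 < m)
  have hd' : (m : ℝ) = j + 1 + (d + 1) := by exact_mod_cast hd
  unfold eps
  generalize (((j : ℝ) + 1) / m * (1 - ((j : ℝ) + 1) / m) -
      ((j : ℝ) + 1) / ((m + 1 : ℕ) : ℝ) * (1 - ((j : ℝ) + 1) / ((m + 1 : ℕ) : ℝ))) = δ
  have e1 : ∀ x : ℝ, x + ((j : ℝ) + 1) / m = (m * x + (j + 1)) / m := by
    intro x; field_simp
  have e2 : ∀ x : ℝ, x + 1 - ((j : ℝ) + 1) / m = (m * x + (d + 1)) / m := by
    intro x; field_simp; rw [hd']; ring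
  rw [e1, e1, e2, e2]
  push_cast
  field_simp
  ring

theorem good_ratio {m : ℕ} (hm : 1 ≤ m) (N : ℕ) :
    Good (fun k => mu m k / mu m (N + k) - 1) (mu m N - 1) := by
  have h := good_prod (range N ×ˢ range (m / 2)) (fun p k => eps m p.2 ((p.1 : ℝ) + k))
    (fun p => eps m p.2 p.1) (fun p hp => good_eps (mem_range.1 (mem_product.1 hp).2) p.1)
  refine (h.congr fun k => ?_).mono ?_
  · have := mu_pos hm (N + k)
    rw [mu_ratio_iter hm N k]
    field_simp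
  · have h0 := mu_ratio_iter hm N 0
    rw [mu_zero] at h0
    simp only [Nat.cast_zero, add_zero] at h0
    have h1 : (∏ p ∈ range N ×ˢ range (m / 2), (1 + eps m p.2 p.1)) *
        ∏ p ∈ range N ×ˢ range (m / 2), (1 - eps m p.2 (p.1 : ℝ)) ≤ 1 := by
      rw [← prod_mul_distrib]
      refine prod_le_one (fun p hp => ?_) (fun p hp => ?_)
      · have a1 := eps_le_one (mem_range.1 (mem_product.1 hp).2) (x := p.1) (by positivity)
        have a2 := eps_nonneg (mem_range.1 (mem_product.1 hp).2) (x := p.1) (by positivity)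
        apply mul_nonneg <;> linarith
      · nlinarith [sq_nonneg (eps m p.2 (p.1 : ℝ))]
    have h2 := mu_pos hm N
    have h3 := mul_le_mul_of_nonneg_left h1 h2.le
    have h4 : mu m N * ((∏ p ∈ range N ×ˢ range (m / 2), (1 + eps m p.2 p.1)) *
        ∏ p ∈ range N ×ˢ range (m / 2), (1 - eps m p.2 (p.1 : ℝ))) =
        (∏ p ∈ range N ×ˢ range (m / 2), (1 + eps m p.2 p.1)) * (mu m N *
        ∏ p ∈ range N ×ˢ range (m / 2), (1 - eps m p.2 (p.1 : ℝ))) := by ring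
    rw [h4, ← h0] at h3
    linarith

end Pool.Agent.P.MP_1ac4dc_an
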