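import Mathlib
import Pool.Agent.P.MP_1ac4dc_an.Mu

set_option autoImplicit false

namespace Pool.Agent.P.MP_1ac4dc_an

open Finset Filter Topology

theorem fact_eq (n : ℕ) (hn : 1 ≤ n) :
    (Nat.factorial n : ℝ) = Stirling.stirlingSeq n * (√(2 * n : ℝ) * (n / Real.exp 1) ^ n) := by
  have hn' : (0 : ℝ) < n := by exact_mod_cast hn
  unfold Stirling.stirlingSeq
  have : 0 < √(2 * n : ℝ) := Real.sqrt_pos.2 (by positivity)
  field_simp

theorem mu_eq {m : ℕ} (hm : 1 ≤ m) (N : ℕ) (hN : 1 ≤ N) :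
    mu m N = (Stirling.stirlingSeq (2 * N) * Stirling.stirlingSeq (m * N)) /
      (Stirling.stirlingSeq N * Stirling.stirlingSeq ((m + 1) * N)) * √(2 * m / (m + 1)) := by
  have hm' : (0 : ℝ) < m := by exact_mod_cast hm
  have hN' : (0 : ℝ) < N := by exact_mod_cast hN
  have p1 : 0 < Stirling.stirlingSeq N := by
    obtain ⟨n, rfl⟩ : ∃ n, N = n + 1 := ⟨N - 1, by omega⟩
    exact Stirling.stirlingSeq'_pos n
  have p2 : 0 < Stirling.stirlingSeq ((m + 1) * N) := by
    obtain ⟨n, hn⟩ : ∃ n, (m + 1) * N = n + 1 := ⟨(m + 1) * N - 1, by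
      have : 1 ≤ (m + 1) * N := Nat.mul_pos (by omega) hN
      omega⟩
    rw [hn]
    exact Stirling.stirlingSeq'_pos n
  unfold mu
  rw [fact_eq (2 * N) (by omega), fact_eq (m * N) (Nat.mul_pos hm hN), fact_eq N hN,
    fact_eq ((m + 1) * N) (Nat.mul_pos (by omega) hN)]
  set w : ℝ := N / Real.exp 1 with hw
  have hw0 : 0 < w := by positivity
  have e1 : (((2 * N : ℕ) : ℝ) / Real.exp 1) ^ (2 * N) = ((2 * w) ^ 2) ^ N := by
    rw [← pow_mul]; congr 1; push_cast; rw [hw]; ring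
  have e2 : (((m * N : ℕ) : ℝ) / Real.exp 1) ^ (m * N) = ((m * w) ^ m) ^ N := by
    rw [← pow_mul]; congr 1; push_cast; rw [hw]; ring
  have e3 : ((((m + 1) * N : ℕ) : ℝ) / Real.exp 1) ^ ((m + 1) * N)
      = (((m + 1) * w) ^ (m + 1)) ^ N := by
    rw [← pow_mul]; congr 1; push_cast; rw [hw]; ring
  have e4 : ((2 * w) ^ 2) ^ N * ((m * w) ^ m) ^ N * kap m ^ N
      = w ^ N * (((m + 1) * w) ^ (m + 1)) ^ N := by
    rw [← mul_pow, ← mul_pow, ← mul_pow]
    congr 1
    unfold kap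
    rw [mul_pow, mul_pow, mul_pow]
    field_simp
    ring
  have e5 : √(2 * ((2 * N : ℕ) : ℝ)) * √(2 * ((m * N : ℕ) : ℝ))
      = √(2 * m / (m + 1)) * (√(2 * (N : ℝ)) * √(2 * (((m + 1) * N : ℕ) : ℝ))) := by
    rw [← Real.sqrt_mul (by positivity), ← Real.sqrt_mul (by positivity),
      ← Real.sqrt_mul (by positivity)]
    congr 1
    push_cast
    field_simp
  have q1 : 0 < √(2 * (N : ℝ)) := Real.sqrt_pos.2 (by positivity)
  have q2 : 0 < √(2 * (((m + 1) * N : ℕ) : ℝ)) := Real.sqrt_pos.2 (by push_cast; positivity)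
  rw [e1, e2, e3]
  generalize √(2 * ((2 * N : ℕ) : ℝ)) = s1 at *
  generalize √(2 * ((m * N : ℕ) : ℝ)) = s2 at *
  generalize √(2 * (N : ℝ)) = s3 at *
  generalize √(2 * (((m + 1) * N : ℕ) : ℝ)) = s4 at *
  generalize √(2 * (m : ℝ) / (m + 1)) = s5 at *
  have r1 : 0 < w ^ N := by positivity
  have r2 : 0 < (((m + 1) * w) ^ (m + 1)) ^ N := by positivity
  generalize ((2 * w) ^ 2) ^ N = A1 at *
  generalize ((m * w) ^ m) ^ N = A2 at *
  generalize (((m + 1) * w) ^ (m + 1)) ^ N = A4 at *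
  generalize w ^ N = A3 at *
  generalize kap m ^ N = K at *
  generalize Stirling.stirlingSeq (2 * N) = t1 at *
  generalize Stirling.stirlingSeq (m * N) = t2 at *
  generalize Stirling.stirlingSeq N = t3 at *
  generalize Stirling.stirlingSeq ((m + 1) * N) = t4 at *
  have : t1 * (s1 * A1) * (t2 * (s2 * A2)) / (t3 * (s3 * A3) * (t4 * (s4 * A4))) * K
      = t1 * t2 * (s1 * s2) * (A1 * A2 * K) / (t3 * t4 * (s3 * s4) * (A3 * A4)) := by
    field_simp
  rw [this, e4, e5]
  field_simp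

theorem tendsto_mul_atTop (c : ℕ) (hc : 1 ≤ c) : Tendsto (fun N : ℕ => c * N) atTop atTop := by
  refine tendsto_atTop_mono (fun N => ?_) tendsto_id
  exact Nat.le_mul_of_pos_left _ hc

theorem mu_tendsto {m : ℕ} (hm : 1 ≤ m) :
    Tendsto (mu m) atTop (𝓝 (√(2 * m / (m + 1)))) := by
  have hs := Stirling.tendsto_stirlingSeq_sqrt_pi
  have hp : 0 < √Real.pi := Real.sqrt_pos.2 Real.pi_pos
  have h := (((hs.comp (tendsto_mul_atTop 2 (by omega))).mul
    (hs.comp (tendsto_mul_atTop m hm))).div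
    (hs.mul (hs.comp (tendsto_mul_atTop (m + 1) (by omega)))) (by positivity)).mul_const
      (√(2 * m / (m + 1) : ℝ))
  rw [div_self (by positivity), one_mul] at h
  refine h.congr' ?_
  filter_upwards [eventually_ge_atTop 1] with N hN
  rw [mu_eq hm N hN]
  rfl

theorem good_main {m : ℕ} (hm : 1 ≤ m) :
    ∃ C : ℝ, 0 < C ∧ Good (fun k => mu m k / C - 1) (1 / 2) := by
  have hm' : (0 : ℝ) < m := by exact_mod_cast hm
  have hC : 0 < √(2 * m / (m + 1) : ℝ) := Real.sqrt_pos.2 (by positivity)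
  have hC2 : √(2 * m / (m + 1) : ℝ) ≤ 3 / 2 := by
    apply Real.sqrt_le_iff.2
    refine ⟨by norm_num, ?_⟩
    rw [div_le_iff₀ (by positivity)]
    nlinarith
  refine ⟨_, hC, ?_⟩
  refine good_limit (g := fun N k => mu m k / mu m (N + k) - 1) (fun N => ?_) (fun k => ?_)
  · refine (good_ratio hm N).mono ?_
    have := (mu_mono hm).ge_of_tendsto (mu_tendsto hm) N
    linarith
  · refine Tendsto.sub_const (Tendsto.div tendsto_const_nhds ?_ hC.ne') 1
    exact (mu_tendsto hm).comp (tendsto_add_atTop_nat k)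

noncomputable def cc (t : ℂ) (k : ℕ) : ℂ := (-1) ^ k * t ^ (2 * k) / (Nat.factorial (2 * k) : ℂ)

theorem hasSum_cc (t : ℂ) (u : ℝ) :
    HasSum (fun k => ((u ^ (2 * k) : ℝ) : ℂ) * cc t k) (Complex.cos (u * t)) := by
  convert Complex.hasSum_cos (u * t) using 2 with k
  unfold cc
  push_cast
  ring

theorem summable_cc (t : ℂ) : Summable (fun k => ‖cc t k‖) := by
  have := (hasSum_cc t 1).summable
  simp only [one_pow, Complex.ofReal_one, one_mul] at this
  exact summable_norm_iff.2 this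

theorem no_zero {g : ℕ → ℝ} (hg : Good g (1 / 2)) (t : ℂ) (ht : t.im ≠ 0)
    (h : HasSum (fun k => (g k : ℂ) * cc t k) (- Complex.cos t)) : False := by
  have hre : Summable (fun k => |(cc t k).re|) :=
    Summable.of_nonneg_of_le (fun _ => abs_nonneg _) (fun k => Complex.abs_re_le_norm _)
      (summable_cc t)
  have him : Summable (fun k => |(cc t k).im|) :=
    Summable.of_nonneg_of_le (fun _ => abs_nonneg _) (fun k => Complex.abs_im_le_norm _)
      (summable_cc t)
  have cre : ∀ z : ℂ, (Complex.cos z).re = Real.cos z.re * Real.cosh z.im := by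
    intro z
    rw [Complex.cos_eq]
    simp [← Complex.ofReal_cos, ← Complex.ofReal_cosh, ← Complex.ofReal_sin, ← Complex.ofReal_sinh]
  have cim : ∀ z : ℂ, (Complex.cos z).im = - (Real.sin z.re * Real.sinh z.im) := by
    intro z
    rw [Complex.cos_eq]
    simp [← Complex.ofReal_cos, ← Complex.ofReal_cosh, ← Complex.ofReal_sin, ← Complex.ofReal_sinh]
  have h1 := hg (fun k => (cc t k).re) (Real.cosh t.im) hre (by
    intro u hu0 hu1
    have h2 := (Complex.hasSum_re (hasSum_cc t u)).tsum_eq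
    simp only [Complex.re_ofReal_mul] at h2
    rw [h2, cre, abs_mul, abs_of_pos (Real.cosh_pos _)]
    have a1 := Real.abs_cos_le_one ((u : ℂ) * t).re
    have a2 : Real.cosh ((u : ℂ) * t).im ≤ Real.cosh t.im := by
      rw [Real.cosh_le_cosh, Complex.im_ofReal_mul, abs_mul, abs_of_nonneg hu0]
      nlinarith [abs_nonneg t.im]
    have a3 := Real.cosh_pos ((u : ℂ) * t).im
    nlinarith)
  have h2 := hg (fun k => (cc t k).im) |Real.sinh t.im| him (by
    intro u hu0 hu1
    have h2 := (Complex.hasSum_im (hasSum_cc t u)).tsum_eq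
    simp only [Complex.im_ofReal_mul] at h2
    rw [h2, cim, abs_neg, abs_mul]
    have a1 := Real.abs_sin_le_one ((u : ℂ) * t).re
    have a2 : |Real.sinh ((u : ℂ) * t).im| ≤ |Real.sinh t.im| := by
      rw [Real.abs_sinh, Real.abs_sinh, Real.sinh_le_sinh, Complex.im_ofReal_mul, abs_mul,
        abs_of_nonneg hu0]
      nlinarith [abs_nonneg t.im]
    have a3 := abs_nonneg (Real.sinh ((u : ℂ) * t).im)
    nlinarith)
  have h3 := (Complex.hasSum_re h).tsum_eq
  have h4 := (Complex.hasSum_im h).tsum_eq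
  simp only [Complex.re_ofReal_mul, Complex.im_ofReal_mul] at h3 h4
  rw [h3, Complex.neg_re, abs_neg, cre, abs_mul, abs_of_pos (Real.cosh_pos _)] at h1
  rw [h4, Complex.neg_im, abs_neg, cim, abs_neg, abs_mul] at h2
  have b1 : |Real.cos t.re| ≤ 1 / 2 := le_of_mul_le_mul_right h1 (Real.cosh_pos _)
  have b2 : |Real.sin t.re| ≤ 1 / 2 :=
    le_of_mul_le_mul_right h2 (abs_pos.2 (by simpa using ht))
  have b3 := Real.sin_sq_add_cos_sq t.re
  have b4 := abs_le.1 b1
  have b5 := abs_le.1 b2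
  nlinarith

theorem main (m : ℕ) (hm2 : 2 ≤ m) (z : ℂ)
    (hz : (∑' k : ℕ, ((Nat.factorial (m * k) : ℂ) /
          ((Nat.factorial ((m + 1) * k) : ℂ) * (Nat.factorial k : ℂ))) * z ^ k) = 0) :
    z.im = 0 := by
  have hm : 1 ≤ m := by omega
  by_contra hzim
  obtain ⟨C, hC, hg⟩ := good_main hm
  have hk := kap_pos hm
  have hk' : (kap m : ℂ) ≠ 0 := by exact_mod_cast hk.ne'
  obtain ⟨t, ht⟩ := IsAlgClosed.exists_pow_nat_eq (- z / (kap m : ℂ)) (n := 2) (by norm_num)
  have hzt : z = - (kap m : ℂ) * t ^ 2 := by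
    rw [ht]; field_simp
  have htim : t.im ≠ 0 := by
    intro h0
    apply hzim
    rw [hzt]
    simp [pow_two, h0]
  have hterm : ∀ k : ℕ, ((Nat.factorial (m * k) : ℂ) /
          ((Nat.factorial ((m + 1) * k) : ℂ) * (Nat.factorial k : ℂ))) * z ^ k
          = (mu m k : ℂ) * cc t k := by
    intro k
    have a1 : (Nat.factorial (2 * k) : ℂ) ≠ 0 := by exact_mod_cast (Nat.factorial_ne_zero _)
    have a2 : (Nat.factorial k : ℂ) ≠ 0 := by exact_mod_cast (Nat.factorial_ne_zero _)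
    have a3 : (Nat.factorial ((m + 1) * k) : ℂ) ≠ 0 := by exact_mod_cast (Nat.factorial_ne_zero _)
    unfold mu cc
    rw [hzt, pow_mul, show - (kap m : ℂ) * t ^ 2 = (-1) * (kap m : ℂ) * t ^ 2 by ring,
      mul_pow, mul_pow]
    push_cast
    field_simp
  simp only [hterm] at hz
  have hsum : Summable (fun k => ((mu m k / C - 1 : ℝ) : ℂ) * cc t k) := by
    refine Summable.of_norm_bounded ((summable_cc t).mul_left (1 / 2)) (fun k => ?_)
    rw [norm_mul, Complex.norm_real, Real.norm_eq_abs]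
    exact mul_le_mul_of_nonneg_right (hg.bound k) (norm_nonneg _)
  have hcos : HasSum (fun k => cc t k) (Complex.cos t) := by
    simpa using hasSum_cc t 1
  have hC' : (C : ℂ) ≠ 0 := by exact_mod_cast hC.ne'
  have h1 := ((hsum.hasSum.add hcos).mul_left (C : ℂ))
  have h2 : (fun k => (C : ℂ) * (((mu m k / C - 1 : ℝ) : ℂ) * cc t k + cc t k))
      = fun k => (mu m k : ℂ) * cc t k := by
    ext k; push_cast; field_simp; ring
  rw [h2] at h1
  have h3 := h1.tsum_eq
  rw [hz] at h3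
  have h4 : ∑' k, ((mu m k / C - 1 : ℝ) : ℂ) * cc t k = - Complex.cos t := by
    have := (mul_eq_zero.1 h3.symm).resolve_left hC'
    linear_combination this
  exact no_zero hg t htim (h4 ▸ hsum.hasSum)

end Pool.Agent.P.MP_1ac4dc_an
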