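import Mathlib
import Pool.Agent.P.MP_1ac4dc_an.Good

namespace Pool.Agent.P.MP_1ac4dc_an

open Finset Filter Topology MeasureTheory

theorem good_limit2 {g : ℕ → ℕ → ℝ} {G : ℕ → ℝ} {θ : ℕ → ℝ} {T : ℝ}
    (h : ∀ N, Good (g N) (θ N)) (hθ : Tendsto θ atTop (𝓝 T))
    (hlim : ∀ k, Tendsto (fun N => g N k) atTop (𝓝 (G k))) : Good G T := by
  intro e B he hB
  have hB0 := bound_nonneg hB
  have key : ∀ ε : ℝ, 0 < ε → |∑' k, G k * e k| ≤ (T + ε) * B := by
    intro ε hε
    obtain ⟨N0, hN0⟩ := eventually_atTop.1 (hθ.eventually (gt_mem_nhds (by linarith : T < T + ε)))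
    have h1 : Good G (T + ε) := by
      refine good_limit (g := fun N => g (N + N0)) (fun N => ?_) (fun k => ?_)
      · exact (h (N + N0)).mono (hN0 _ (by omega)).le
      · exact (hlim k).comp (tendsto_add_atTop_nat N0)
    exact h1 e B he hB
  have ht : Tendsto (fun ε : ℝ => (T + ε) * B) (𝓝[>] 0) (𝓝 ((T + 0) * B)) := by
    apply Tendsto.mono_left _ nhdsWithin_le_nhds
    exact ((continuous_const.add continuous_id).mul continuous_const).tendsto 0
  rw [add_zero] at ht
  exact ge_of_tendsto ht (eventually_nhdsWithin_of_forall fun ε hε => key ε hε)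

theorem good_exp {g : ℕ → ℝ} {θ : ℝ} (h : Good g θ) :
    Good (fun k => Real.exp (g k) - 1) (Real.exp θ - 1) := by
  refine good_limit2 (g := fun N k => (1 + g k / N) ^ N - 1) (θ := fun N => (1 + θ / N) ^ N - 1)
    (fun N => ?_) ((Real.tendsto_one_add_div_pow_exp θ).sub_const 1)
    (fun k => (Real.tendsto_one_add_div_pow_exp (g k)).sub_const 1)
  have h1 := good_prod (range N) (fun _ k => (-(1 / (N : ℝ))) * g k) (fun _ => θ / N)
    (fun i _ => (h.smul (-(1 / (N : ℝ)))).mono (le_of_eq (by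
      rw [abs_neg, abs_of_nonneg (by positivity)]; ring)))
  simp only [prod_const, card_range] at h1
  refine h1.congr fun k => ?_
  congr 2
  ring

theorem good_integral {w : ℝ → ℝ} (hw : IntegrableOn w (Set.Ioi 0)) :
    Good (fun k => ∫ t in Set.Ioi (0 : ℝ), w t * Real.exp (-(k * t)))
      (∫ t in Set.Ioi (0 : ℝ), |w t|) := by
  intro e B he hB
  set F : ℕ → ℝ → ℝ := fun k t => w t * Real.exp (-(k * t)) * e k with hF
  have hexp : ∀ (k : ℕ) (t : ℝ), 0 < t → Real.exp (-(k * t)) ≤ 1 := by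
    intro k t ht
    rw [Real.exp_le_one_iff]
    have : 0 ≤ (k : ℝ) * t := by positivity
    linarith
  have hbd : ∀ k, ∀ᵐ t ∂(volume.restrict (Set.Ioi (0 : ℝ))), ‖F k t‖ ≤ |w t| * |e k| := by
    intro k
    rw [ae_restrict_iff' measurableSet_Ioi]
    refine Eventually.of_forall fun t ht => ?_
    simp only [hF]
    rw [Real.norm_eq_abs, abs_mul, abs_mul, abs_of_pos (Real.exp_pos _)]
    have := hexp k t ht
    have h1 : |w t| * Real.exp (-(k * t)) ≤ |w t| := mul_le_of_le_one_right (abs_nonneg _) this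
    exact mul_le_mul_of_nonneg_right h1 (abs_nonneg _)
  have hint : ∀ k, Integrable (F k) (volume.restrict (Set.Ioi (0 : ℝ))) := by
    intro k
    refine Integrable.mono' (hw.abs.mul_const |e k|) ?_ (hbd k)
    refine (hw.aestronglyMeasurable.mul ?_).mul aestronglyMeasurable_const
    exact (by fun_prop : Continuous fun t : ℝ => Real.exp (-(k * t))).aestronglyMeasurable
  have hval : ∀ k, ∫ t in Set.Ioi (0 : ℝ), F k t
      = (∫ t in Set.Ioi (0 : ℝ), w t * Real.exp (-(k * t))) * e k := by
    intro k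
    simp only [hF]
    rw [integral_mul_const]
  have hnorm : ∀ k, ∫ t in Set.Ioi (0 : ℝ), ‖F k t‖ ≤ (∫ t in Set.Ioi (0 : ℝ), |w t|) * |e k| := by
    intro k
    rw [← integral_mul_const]
    exact integral_mono_ae (hint k).norm (hw.abs.mul_const _) (hbd k)
  have hsum : Summable (fun k => ∫ t in Set.Ioi (0 : ℝ), ‖F k t‖) :=
    Summable.of_nonneg_of_le (fun k => integral_nonneg (fun _ => norm_nonneg _)) hnorm
      (he.mul_left _)
  have hs := hasSum_integral_of_summable_integral_norm hint hsum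
  simp only [hval] at hs
  rw [hs.tsum_eq, ← integral_mul_const, ← Real.norm_eq_abs]
  apply norm_integral_le_of_norm_le (hw.abs.mul_const B)
  rw [ae_restrict_iff' measurableSet_Ioi]
  refine Eventually.of_forall fun t ht => ?_
  have h1 : ∑' k, F k t = w t * ∑' k, (Real.exp (-(t / 2))) ^ (2 * k) * e k := by
    rw [← tsum_mul_left]
    congr 1
    ext k
    simp only [hF]
    rw [← Real.exp_nat_mul, mul_assoc]
    congr 3
    push_cast
    ring
  have ht' : (0 : ℝ) < t := ht
  have h2 := hB (Real.exp (-(t / 2))) (Real.exp_pos _).le (by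
    rw [Real.exp_le_one_iff]; linarith)
  rw [h1, Real.norm_eq_abs, abs_mul]
  exact mul_le_mul_of_nonneg_left h2 (abs_nonneg _)

/-- Frullani kernel -/
noncomputable def fr (p t : ℝ) : ℝ := t⁻¹ * (Real.exp (-(p * t)) - Real.exp (-t))

theorem abs_exp_sub_le {x y m : ℝ} (hx : m ≤ x) (hy : m ≤ y) :
    |Real.exp (-x) - Real.exp (-y)| ≤ |x - y| * Real.exp (-m) := by
  wlog h : x ≤ y generalizing x y
  · rw [abs_sub_comm, abs_sub_comm x y]
    exact this hy hx (le_of_not_ge h)
  have h1 : Real.exp (-y) ≤ Real.exp (-x) := Real.exp_le_exp.2 (by linarith)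
  have h2 : Real.exp (-x) ≤ Real.exp (-m) := Real.exp_le_exp.2 (by linarith)
  have h3 : Real.exp (-y) = Real.exp (-x) * Real.exp (x - y) := by
    rw [← Real.exp_add]; congr 1; ring
  have h4 := Real.add_one_le_exp (x - y)
  have h5 := Real.exp_pos (-x)
  rw [abs_of_nonneg (by linarith), abs_of_nonpos (by linarith), h3]
  nlinarith [mul_le_mul_of_nonneg_left h4 h5.le, mul_le_mul_of_nonneg_left h2 (by linarith : 0 ≤ y - x)]

theorem fr_integrable {p : ℝ} (hp : 0 < p) : IntegrableOn (fr p) (Set.Ioi 0) := by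
  have hm : 0 < min p 1 := lt_min hp one_pos
  have h0 := (exp_neg_integrableOn_Ioi 0 hm).const_mul |p - 1|
  refine Integrable.mono' h0 ?_ ?_
  · refine ContinuousOn.aestronglyMeasurable ?_ measurableSet_Ioi
    unfold fr
    refine ContinuousOn.mul (continuousOn_inv₀.mono fun x hx => ne_of_gt hx) ?_
    fun_prop
  · rw [ae_restrict_iff' measurableSet_Ioi]
    refine Eventually.of_forall fun t ht => ?_
    have ht' : (0 : ℝ) < t := ht
    have h1 := abs_exp_sub_le (x := p * t) (y := t) (m := min p 1 * t)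
      (mul_le_mul_of_nonneg_right (min_le_left _ _) ht'.le)
      (by nlinarith [min_le_right p 1])
    unfold fr
    rw [Real.norm_eq_abs, abs_mul, abs_of_pos (inv_pos.2 ht'), inv_mul_le_iff₀ ht']
    refine h1.trans (le_of_eq ?_)
    rw [show p * t - t = (p - 1) * t by ring, abs_mul, abs_of_pos ht', neg_mul]
    ring

theorem fr_integral {p : ℝ} (hp : 0 < p) : ∫ t in Set.Ioi (0 : ℝ), fr p t = - Real.log p := by
  have hc : Continuous fun x : ℝ => Real.exp (-x) := by fun_prop
  have h := Frullani.integral_Ioi_eq (f := fun x : ℝ => Real.exp (-x)) (a := p) (b := 1)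
    (L := 1) (R := 0) (hc.locallyIntegrable.locallyIntegrableOn _) hp one_pos
    (by simpa using (hc.tendsto 0).mono_left nhdsWithin_le_nhds)
    Real.tendsto_exp_neg_atTop_nhds_zero (by
      have h0 := fr_integrable hp
      unfold fr at h0
      simpa using h0)
  simpa [fr] using h

end Pool.Agent.P.MP_1ac4dc_an
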