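import Mathlib

namespace Pool.Agent.P.MP_1ac4dc_an

open Finset Filter Topology

theorem sinh_mul_le {l y : ℝ} (hl0 : 0 ≤ l) (hl1 : l ≤ 1) (hy : 0 ≤ y) :
    Real.sinh (l * y) ≤ l * Real.sinh y := by
  have hd : ∀ x : ℝ, HasDerivAt (fun x => l * Real.sinh x - Real.sinh (l * x))
      (l * Real.cosh x - Real.cosh (l * x) * l) x := by
    intro x
    have h1 := (Real.hasDerivAt_sinh x).const_mul l
    have h2 := ((hasDerivAt_id x).const_mul l).sinh
    simpa using h1.fun_sub h2
  have hm : Monotone (fun x => l * Real.sinh x - Real.sinh (l * x)) := by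
    refine monotone_of_deriv_nonneg (fun x => (hd x).differentiableAt) fun x => ?_
    rw [(hd x).deriv]
    have : Real.cosh (l * x) ≤ Real.cosh x := by
      rw [Real.cosh_le_cosh, abs_mul, abs_of_nonneg hl0]
      nlinarith [abs_nonneg x]
    nlinarith
  have := hm hy
  simp only [Real.sinh_zero, mul_zero, sub_zero] at this
  linarith

/-- Bose kernel -/
noncomputable def bo (x : ℝ) : ℝ := (Real.exp x - 1)⁻¹

theorem exp_sub_one_pos {x : ℝ} (hx : 0 < x) : 0 < Real.exp x - 1 := by
  have := Real.add_one_lt_exp hx.ne'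
  linarith

theorem G_eq {x : ℝ} (hx : 0 < x) :
    x ^ 2 * Real.exp x / (Real.exp x - 1) ^ 2 = ((x / 2) / Real.sinh (x / 2)) ^ 2 := by
  have h1 := exp_sub_one_pos hx
  have h2 : Real.exp x = Real.exp (x / 2) ^ 2 := by
    rw [← Real.exp_nat_mul]; congr 1; push_cast; ring
  have h3 := Real.exp_pos (x / 2)
  have h4 : Real.sinh (x / 2) = (Real.exp x - 1) / (2 * Real.exp (x / 2)) := by
    rw [Real.sinh_eq, Real.exp_neg, h2]
    field_simp
  rw [h4]
  have h5 : Real.exp (x / 2) ^ 2 - 1 ≠ 0 := by rw [← h2]; exact h1.ne'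
  rw [h2]
  field_simp

theorem G_anti {x y : ℝ} (hx : 0 < x) (hxy : x ≤ y) :
    y ^ 2 * Real.exp y / (Real.exp y - 1) ^ 2 ≤ x ^ 2 * Real.exp x / (Real.exp x - 1) ^ 2 := by
  have hy : 0 < y := lt_of_lt_of_le hx hxy
  rw [G_eq hx, G_eq hy]
  have sx : 0 < Real.sinh (x / 2) := Real.sinh_pos_iff.2 (by linarith)
  have sy : 0 < Real.sinh (y / 2) := Real.sinh_pos_iff.2 (by linarith)
  have h := sinh_mul_le (l := x / y) (y := y / 2) (by positivity)
    ((div_le_one hy).2 hxy) (by linarith)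
  rw [show x / y * (y / 2) = x / 2 by field_simp] at h
  apply pow_le_pow_left₀ (by positivity)
  rw [div_le_div_iff₀ sy sx]
  have : y / 2 * Real.sinh (x / 2) ≤ y / 2 * (x / y * Real.sinh (y / 2)) :=
    mul_le_mul_of_nonneg_left h (by linarith)
  refine this.trans (le_of_eq ?_)
  field_simp

theorem bo_deriv {t c : ℝ} (ht : 0 < t) (hc : 0 < c) :
    HasDerivAt (fun c => bo (t / c))
      (t⁻¹ * ((t / c) ^ 2 * Real.exp (t / c) / (Real.exp (t / c) - 1) ^ 2)) c := by
  have h1 : HasDerivAt (fun c : ℝ => t / c) (-(t / c ^ 2)) c := by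
    have := (hasDerivAt_inv hc.ne').const_mul t
    simpa [div_eq_mul_inv] using this
  have h2 := (h1.exp.sub_const 1).inv (exp_sub_one_pos (div_pos ht hc)).ne'
  have h3 := exp_sub_one_pos (div_pos ht hc)
  refine h2.congr_deriv ?_
  field_simp

theorem bo_mono {t : ℝ} (ht : 0 < t) :
    MonotoneOn (fun c => bo (t / (c + 1)) - bo (t / c)) (Set.Ioi 0) := by
  have hd : ∀ c : ℝ, 0 < c → HasDerivAt (fun c => bo (t / (c + 1)) - bo (t / c))
      (t⁻¹ * ((t / (c + 1)) ^ 2 * Real.exp (t / (c + 1)) / (Real.exp (t / (c + 1)) - 1) ^ 2) -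
        t⁻¹ * ((t / c) ^ 2 * Real.exp (t / c) / (Real.exp (t / c) - 1) ^ 2)) c := by
    intro c hc
    have h1 := (bo_deriv ht (by linarith : 0 < c + 1)).comp_add_const c 1
    exact h1.sub (bo_deriv ht hc)
  refine monotoneOn_of_deriv_nonneg (convex_Ioi 0)
    (fun c hc => (hd c hc).continuousAt.continuousWithinAt)
    (fun c hc => (hd c (by simpa using hc)).differentiableAt.differentiableWithinAt) fun c hc => ?_
  have hc' : 0 < c := by simpa using hc
  rw [(hd c hc').deriv]
  have h1 := G_anti (x := t / (c + 1)) (y := t / c) (by positivity)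
    (div_le_div_of_nonneg_left ht.le hc' (by linarith))
  have h2 : 0 < t⁻¹ := inv_pos.2 ht
  nlinarith

theorem geom_bo {c t M : ℝ} (hc : 0 < c) (ht : 0 < t) (N : ℕ) (hN : (N : ℝ) = c * M) :
    ∑ j ∈ range N, Real.exp (-((((j : ℝ) + 1) / c) * t)) = bo (t / c) * (1 - Real.exp (-(M * t))) := by
  have h0 := exp_sub_one_pos (div_pos ht hc)
  have h1 : ∀ n : ℕ, ∑ j ∈ range n, Real.exp (-((((j : ℝ) + 1) / c) * t))
      = bo (t / c) * (1 - Real.exp (-((n / c) * t))) := by
    intro n
    induction n with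
    | zero => simp
    | succ n ih =>
      rw [sum_range_succ, ih]
      have e : Real.exp (-((n / c) * t)) =
          Real.exp (-((((n : ℝ) + 1) / c) * t)) * Real.exp (t / c) := by
        rw [← Real.exp_add]; congr 1; field_simp; ring
      rw [e]
      push_cast
      unfold bo
      field_simp
      ring
  rw [h1, hN]
  congr 4
  field_simp

end Pool.Agent.P.MP_1ac4dc_an
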