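import Mathlib

namespace Pool.Agent.P.MP_1ac4dc_an

open Finset Filter Topology

/-- Stirling remainder at a real point -/
noncomputable def St (y : ℝ) : ℝ := Real.log (Real.Gamma (y + 1)) - ((y + 1 / 2) * Real.log y - y)

theorem St_nat : Tendsto (fun n : ℕ => St n) atTop (𝓝 (Real.log √Real.pi + 1 / 2 * Real.log 2)) := by
  have hp : √Real.pi ≠ 0 := (Real.sqrt_pos.2 Real.pi_pos).ne'
  have h := (Stirling.tendsto_stirlingSeq_sqrt_pi.log hp).add_const (1 / 2 * Real.log 2)
  refine h.congr' ?_
  filter_upwards [eventually_ge_atTop 1] with n hn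
  have hn' : (0 : ℝ) < n := by exact_mod_cast hn
  rw [Stirling.log_stirlingSeq_formula, St, Real.Gamma_nat_eq_factorial,
    Real.log_mul two_ne_zero hn'.ne', Real.log_div hn'.ne' (Real.exp_pos 1).ne', Real.log_exp]
  ring

theorem St_close {n : ℕ} (hn : 1 ≤ n) {r : ℝ} (hr0 : 0 ≤ r) (hr1 : r ≤ 1) :
    |St (n + r) - St n| ≤ 2 / n := by
  have hn' : (0 : ℝ) < n := by exact_mod_cast hn
  have hn1 : (1 : ℝ) ≤ n := by exact_mod_cast hn
  rcases eq_or_lt_of_le hr0 with rfl | hr
  · simp; positivity
  have feq : ∀ {y : ℝ}, 0 < y → (Real.log ∘ Real.Gamma) (y + 1) = (Real.log ∘ Real.Gamma) y + Real.log y := by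
    intro y hy
    rw [Function.comp_apply, Real.Gamma_add_one hy.ne',
      Real.log_mul hy.ne' (Real.Gamma_pos_of_pos hy).ne', add_comm, Function.comp_apply]
  have h1 := Real.BohrMollerup.f_add_nat_le (n := n + 1) Real.convexOn_log_Gamma feq
    (by omega) hr hr1
  have h2 := Real.BohrMollerup.f_add_nat_ge (n := n + 1) Real.convexOn_log_Gamma feq
    (by omega) hr
  simp only [Function.comp_apply] at h1 h2
  push_cast at h1 h2
  rw [add_sub_cancel_right] at h2
  rw [show (n : ℝ) + 1 + r = n + r + 1 by ring] at h1 h2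
  have a1 : Real.log (n + r) = Real.log n + Real.log (1 + r / n) := by
    rw [← Real.log_mul hn'.ne' (by positivity)]; congr 1; field_simp
  have a2 : Real.log (n + 1) = Real.log n + Real.log (1 + 1 / n) := by
    rw [← Real.log_mul hn'.ne' (by positivity)]; congr 1; field_simp
  have b1 : Real.log (1 + r / n) ≤ r / n := by
    have := Real.log_le_sub_one_of_pos (x := 1 + r / n) (by positivity); linarith
  have b2 : Real.log (1 + 1 / n) ≤ 1 / n := by
    have := Real.log_le_sub_one_of_pos (x := 1 + 1 / n) (by positivity); linarith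
  have b3 : r / (n + r) ≤ Real.log (1 + r / n) := by
    have := Real.one_sub_inv_le_log_of_pos (x := 1 + r / n) (by positivity)
    refine le_trans (le_of_eq ?_) this
    field_simp
    ring
  have b4 : 0 ≤ Real.log (1 + 1 / n) := Real.log_nonneg (by
    have : (0 : ℝ) ≤ 1 / n := by positivity
    linarith)
  have c1 : (n + r + 1 / 2) * Real.log (1 + r / n) ≤ r + 2 / n := by
    refine (mul_le_mul_of_nonneg_left b1 (by positivity)).trans ?_
    have : (n + r + 1 / 2) * (r / n) = r + (r + 1 / 2) * r / n := by field_simp; ring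
    rw [this]
    have : (r + 1 / 2) * r / n ≤ 2 / n := by
      apply div_le_div_of_nonneg_right _ hn'.le
      nlinarith
    linarith
  have c2 : r ≤ (n + r + 1 / 2) * Real.log (1 + r / n) := by
    refine le_trans ?_ (mul_le_mul_of_nonneg_left b3 (by positivity))
    rw [mul_div_assoc', le_div_iff₀ (by positivity)]
    nlinarith
  have c3 : r * Real.log (1 + 1 / n) ≤ 2 / n := by
    have : r * Real.log (1 + 1 / n) ≤ 1 * (1 / n) := mul_le_mul hr1 b2 b4 zero_le_one
    have h3 : (1 : ℝ) * (1 / n) ≤ 2 / n := by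
      rw [one_mul]; exact div_le_div_of_nonneg_right (by norm_num) hn'.le
    linarith
  unfold St
  rw [a1]
  rw [a2] at h1
  rw [abs_le]
  constructor <;> nlinarith

theorem St_tendsto : Tendsto St atTop (𝓝 (Real.log √Real.pi + 1 / 2 * Real.log 2)) := by
  have h1 := St_nat.comp (tendsto_nat_floor_atTop (α := ℝ))
  have h2 : Tendsto (fun y : ℝ => St y - St (⌊y⌋₊ : ℕ)) atTop (𝓝 0) := by
    have h3 : Tendsto (fun y : ℝ => (2 : ℝ) / (⌊y⌋₊ : ℕ)) atTop (𝓝 0) :=
      (tendsto_const_div_atTop_nhds_zero_nat 2).comp tendsto_nat_floor_atTop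
    refine squeeze_zero_norm' ?_ h3
    filter_upwards [eventually_ge_atTop (1 : ℝ)] with y hy
    have h4 := St_close (n := ⌊y⌋₊) (Nat.le_floor (by simpa using hy)) (r := y - ⌊y⌋₊)
      (by have := Nat.floor_le (by linarith : (0 : ℝ) ≤ y); linarith)
      (by have := Nat.lt_floor_add_one y; linarith)
    rw [add_sub_cancel] at h4
    exact h4
  have h5 := h1.add h2
  rw [add_zero] at h5
  refine h5.congr fun y => ?_
  simp

end Pool.Agent.P.MP_1ac4dc_an
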