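import Mathlib
import Pool.Agent.P.MP_1ac4dc_an.RGood
import Pool.Agent.P.MP_1ac4dc_an.RSign
import Pool.Agent.P.MP_1ac4dc_an.RStir

namespace Pool.Agent.P.MP_1ac4dc_an

open Finset Filter Topology MeasureTheory

noncomputable def LG (c s : ℝ) : ℝ := Real.log (Real.Gamma (c * s + 1)) - c * s * Real.log c

noncomputable def lmu (a s : ℝ) : ℝ := LG 2 s + LG a s - LG 1 s - LG (a + 1) s

theorem logGamma_add (x : ℝ) (hx : 0 ≤ x) (N : ℕ) :
    Real.log (Real.Gamma (x + N + 1)) =
      Real.log (Real.Gamma (x + 1)) + ∑ j ∈ range N, Real.log (x + j + 1) := by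
  induction N with
  | zero => simp
  | succ N ih =>
    have h : 0 < x + N + 1 := by positivity
    rw [sum_range_succ, ← add_assoc, ← ih]
    push_cast
    rw [show x + (N + 1) + 1 = (x + N + 1) + 1 by ring, Real.Gamma_add_one h.ne',
      Real.log_mul h.ne' (Real.Gamma_pos_of_pos h).ne']
    ring

theorem LG_shift {c s M : ℝ} (hc : 0 < c) (hs : 0 ≤ s) (N : ℕ) (hN : (N : ℝ) = c * M) :
    LG c (s + M) = LG c s + ∑ j ∈ range N, Real.log (s + ((j : ℝ) + 1) / c) := by
  unfold LG
  rw [mul_add, ← hN, logGamma_add (c * s) (by positivity) N]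
  have : ∑ j ∈ range N, Real.log (c * s + j + 1)
      = ∑ j ∈ range N, (Real.log c + Real.log (s + ((j : ℝ) + 1) / c)) := by
    refine sum_congr rfl fun j _ => ?_
    rw [← Real.log_mul hc.ne' (by positivity)]
    congr 1
    field_simp
    ring
  rw [this, sum_add_distrib, sum_const, card_range, nsmul_eq_mul]
  ring

noncomputable def PP (c : ℝ) (N : ℕ) (s t : ℝ) : ℝ := ∑ j ∈ range N, fr (s + ((j : ℝ) + 1) / c) t

theorem P_integrable {c s : ℝ} (hc : 0 < c) (hs : 0 ≤ s) (N : ℕ) :
    IntegrableOn (PP c N s) (Set.Ioi 0) := by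
  unfold PP
  exact integrable_finsetSum _ fun j _ => fr_integrable (by positivity)

theorem P_integral {c s M : ℝ} (hc : 0 < c) (hs : 0 ≤ s) (N : ℕ) (hN : (N : ℝ) = c * M) :
    ∫ t in Set.Ioi (0 : ℝ), PP c N s t = LG c s - LG c (s + M) := by
  unfold PP
  rw [integral_finsetSum _ fun j _ => fr_integrable (by positivity), LG_shift hc hs N hN]
  rw [sum_congr rfl fun (j : ℕ) _ => fr_integral (p := s + ((j : ℝ) + 1) / c) (by positivity),
    sum_neg_distrib]
  ring

theorem P_eq {c s M t : ℝ} (hc : 0 < c) (ht : 0 < t) (N : ℕ) (hN : (N : ℝ) = c * M) :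
    PP c N s t = t⁻¹ * (Real.exp (-(s * t)) * (bo (t / c) * (1 - Real.exp (-(M * t))))
      - c * M * Real.exp (-t)) := by
  rw [← geom_bo hc ht N hN, ← hN]
  unfold PP fr
  rw [← mul_sum, sum_sub_distrib, sum_const, card_range, nsmul_eq_mul, mul_sum]
  congr 2
  refine sum_congr rfl fun j _ => ?_
  rw [← Real.exp_add]
  congr 1
  ring

noncomputable def W (a : ℝ) (M A : ℕ) (s t : ℝ) : ℝ :=
  PP 2 (2 * M) s t + PP a A s t - PP 1 M s t - PP (a + 1) (A + M) s t

noncomputable def D (a t : ℝ) : ℝ := bo (t / 2) + bo (t / a) - bo (t / 1) - bo (t / (a + 1))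

theorem W_eq {a s t : ℝ} (ha : 0 < a) (ht : 0 < t) {M A : ℕ} (hA : (A : ℝ) = a * M) :
    W a M A s t = t⁻¹ * (1 - Real.exp (-(M * t))) * D a t * Real.exp (-(s * t)) := by
  unfold W D
  rw [P_eq (M := M) two_pos ht _ (by push_cast; ring), P_eq (M := M) ha ht _ hA,
    P_eq (M := M) one_pos ht _ (by ring),
    P_eq (M := M) (by linarith) ht _ (by push_cast; rw [hA]; ring)]
  ring

theorem W_integrable {a s : ℝ} (ha : 0 < a) (hs : 0 ≤ s) (M A : ℕ) :
    IntegrableOn (W a M A s) (Set.Ioi 0) :=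
  (((P_integrable two_pos hs _).add (P_integrable ha hs _)).sub (P_integrable one_pos hs _)).sub
    (P_integrable (by linarith) hs _)

theorem W_integral {a s : ℝ} (ha : 0 < a) (hs : 0 ≤ s) {M A : ℕ} (hA : (A : ℝ) = a * M) :
    ∫ t in Set.Ioi (0 : ℝ), W a M A s t = lmu a s - lmu a (s + M) := by
  unfold W
  have i1 := P_integrable (c := 2) two_pos hs (2 * M)
  have i2 := P_integrable ha hs A
  have i3 := P_integrable (c := 1) one_pos hs M
  have i4 := P_integrable (c := a + 1) (by linarith) hs (A + M)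
  have j2 : IntegrableOn (fun t => PP 2 (2 * M) s t + PP a A s t) (Set.Ioi 0) := i1.add i2
  have j3 : IntegrableOn (fun t => PP 2 (2 * M) s t + PP a A s t - PP 1 M s t) (Set.Ioi 0) :=
    j2.sub i3
  rw [integral_sub j3 i4, integral_sub j2 i3, integral_add i1 i2,
    P_integral (M := M) two_pos hs _ (by push_cast; ring), P_integral (M := M) ha hs _ hA,
    P_integral (M := M) one_pos hs _ (by ring),
    P_integral (M := M) (by linarith) hs _ (by push_cast; rw [hA]; ring)]
  unfold lmu
  ring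

theorem D_sign {a : ℝ} (ha : 0 < a) :
    (∀ t : ℝ, 0 < t → 0 ≤ D a t) ∨ (∀ t : ℝ, 0 < t → D a t ≤ 0) := by
  rcases le_total a 1 with h | h
  · left
    intro t ht
    have := bo_mono ht (Set.mem_Ioi.2 ha) (Set.mem_Ioi.2 one_pos) h
    simp only [one_add_one_eq_two] at this
    unfold D
    linarith
  · right
    intro t ht
    have := bo_mono ht (Set.mem_Ioi.2 one_pos) (Set.mem_Ioi.2 ha) h
    simp only [one_add_one_eq_two] at this
    unfold D
    linarith

theorem lmu_zero (a : ℝ) : lmu a 0 = 0 := by simp [lmu, LG]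

theorem good_fin {a : ℝ} (ha : 0 < a) {M A : ℕ} (hA : (A : ℝ) = a * M) :
    Good (fun k => lmu a k - lmu a (k + M)) |lmu a M| := by
  have h := good_integral (W_integrable ha le_rfl M A)
  have h0 := W_integral ha le_rfl hA
  rw [lmu_zero, zero_add, zero_sub] at h0
  have hf : ∀ t : ℝ, 0 < t → 0 ≤ t⁻¹ * (1 - Real.exp (-(M * t))) := by
    intro t ht
    have : Real.exp (-(M * t)) ≤ 1 := by
      rw [Real.exp_le_one_iff]
      have : 0 ≤ (M : ℝ) * t := by positivity
      linarith
    have h2 := inv_pos.2 ht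
    nlinarith
  refine (h.congr fun k => ?_).mono (le_of_eq ?_)
  · rw [← W_integral ha (by positivity) hA]
    refine setIntegral_congr_fun measurableSet_Ioi fun t ht => ?_
    simp only [W_eq ha ht hA]
    simp
  · rcases D_sign ha with hs | hs
    · have hp : ∀ t ∈ Set.Ioi (0 : ℝ), 0 ≤ W a M A 0 t := by
        intro t ht
        rw [W_eq ha ht hA]
        exact mul_nonneg (mul_nonneg (hf t ht) (hs t ht)) (Real.exp_pos _).le
      rw [setIntegral_congr_fun measurableSet_Ioi (g := W a M A 0)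
        (fun t ht => abs_of_nonneg (hp t ht)), ← abs_neg, ← h0,
        abs_of_nonneg (setIntegral_nonneg measurableSet_Ioi hp)]
    · have hp : ∀ t ∈ Set.Ioi (0 : ℝ), W a M A 0 t ≤ 0 := by
        intro t ht
        rw [W_eq ha ht hA]
        exact mul_nonpos_of_nonpos_of_nonneg (mul_nonpos_of_nonneg_of_nonpos (hf t ht) (hs t ht))
          (Real.exp_pos _).le
      rw [setIntegral_congr_fun measurableSet_Ioi (g := fun t => - W a M A 0 t)
        (fun t ht => abs_of_nonpos (hp t ht)), ← abs_neg, ← h0,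
        abs_of_nonpos (setIntegral_nonpos measurableSet_Ioi hp), integral_neg]

noncomputable def lC (a : ℝ) : ℝ := 1 / 2 * (Real.log 2 + Real.log a - Real.log (a + 1))

theorem LG_eq {c x : ℝ} (hc : 0 < c) (hx : 0 < x) :
    LG c x = St (c * x) + c * x * Real.log x - c * x + 1 / 2 * Real.log c + 1 / 2 * Real.log x := by
  unfold LG St
  rw [Real.log_mul hc.ne' hx.ne']
  ring

theorem lmu_tendsto {a : ℝ} (ha : 0 < a) : Tendsto (lmu a) atTop (𝓝 (lC a)) := by
  have h : ∀ c : ℝ, 0 < c → Tendsto (fun x => St (c * x)) atTop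
      (𝓝 (Real.log √Real.pi + 1 / 2 * Real.log 2)) :=
    fun c hc => St_tendsto.comp (tendsto_id.const_mul_atTop hc)
  have h1 := ((((h 2 two_pos).add (h a ha)).sub (h 1 one_pos)).sub (h (a + 1) (by linarith))).add_const
    (lC a)
  rw [add_sub_cancel_right, sub_self, zero_add] at h1
  refine h1.congr' ?_
  filter_upwards [eventually_gt_atTop (0 : ℝ)] with x hx
  unfold lmu lC
  rw [LG_eq two_pos hx, LG_eq ha hx, LG_eq one_pos hx, LG_eq (by linarith : 0 < a + 1) hx,
    Real.log_one]
  ring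

theorem good_rat {a : ℝ} (ha : 0 < a) {p q : ℕ} (hq : 1 ≤ q) (hpq : (p : ℝ) = a * q) :
    Good (fun k => lmu a k - lC a) |lC a| := by
  have hq' : (0 : ℝ) < q := by exact_mod_cast hq
  have ht : Tendsto (fun N : ℕ => ((q * N : ℕ) : ℝ)) atTop atTop := by
    push_cast
    exact tendsto_natCast_atTop_atTop.const_mul_atTop hq'
  refine good_limit2 (g := fun N k => lmu a k - lmu a (k + ((q * N : ℕ) : ℝ)))
    (θ := fun N => |lmu a ((q * N : ℕ) : ℝ)|) (fun N => ?_) ((lmu_tendsto ha).comp ht).abs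
    (fun k => tendsto_const_nhds.sub ((lmu_tendsto ha).comp (tendsto_atTop_add_const_left _ _ ht)))
  exact good_fin (A := p * N) ha (by push_cast; rw [hpq]; ring)

theorem LG_cont {c s : ℝ} (hc : 0 < c) (hs : 0 ≤ s) : ContinuousAt (fun c => LG c s) c := by
  unfold LG
  have h0 : 0 < c * s + 1 := by positivity
  have h1 : ContinuousAt Real.Gamma (c * s + 1) :=
    (Real.differentiableAt_Gamma fun m => by
      have : (0 : ℝ) ≤ m := by positivity
      linarith).continuousAt
  have h2 : ContinuousAt (fun c : ℝ => Real.Gamma (c * s + 1)) c :=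
    ContinuousAt.comp (f := fun c : ℝ => c * s + 1) h1 (by fun_prop)
  exact (h2.log (Real.Gamma_pos_of_pos h0).ne').sub
    ((continuousAt_id.mul continuousAt_const).mul (Real.continuousAt_log hc.ne'))

theorem good_real {a : ℝ} (ha : 0 < a) : Good (fun k => lmu a k - lC a) |lC a| := by
  set r : ℕ → ℝ := fun N => ((⌊a * (N + 1 : ℕ)⌋₊ + 1 : ℕ) : ℝ) / (N + 1 : ℕ) with hr
  have hN : ∀ N : ℕ, (0 : ℝ) < (N + 1 : ℕ) := fun N => by positivity
  have hr0 : ∀ N, 0 < r N := fun N => by simp only [hr]; positivity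
  have hrt : Tendsto r atTop (𝓝 a) := by
    have h1 : Tendsto (fun N : ℕ => a + 1 / ((N + 1 : ℕ) : ℝ)) atTop (𝓝 (a + 0)) :=
      tendsto_const_nhds.add ((tendsto_const_div_atTop_nhds_zero_nat 1).comp
        (tendsto_add_atTop_nat 1))
    rw [add_zero] at h1
    refine tendsto_of_tendsto_of_tendsto_of_le_of_le tendsto_const_nhds h1 (fun N => ?_) (fun N => ?_)
    · simp only [hr]
      rw [le_div_iff₀ (hN N)]
      have := Nat.lt_floor_add_one (a * (N + 1 : ℕ))
      rw [Nat.cast_add, Nat.cast_one] at *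
      push_cast at *
      linarith
    · simp only [hr]
      rw [div_le_iff₀ (hN N), add_mul, one_div_mul_cancel (hN N).ne']
      have := Nat.floor_le (a := a * (N + 1 : ℕ)) (mul_pos ha (hN N)).le
      rw [Nat.cast_add (⌊a * (N + 1 : ℕ)⌋₊), Nat.cast_one]
      linarith
  have hC : ContinuousAt lC a := by
    unfold lC
    have : a + 1 ≠ 0 := by linarith
    have h2 := ha.ne'
    fun_prop (disch := assumption)
  have hL : ∀ k : ℕ, ContinuousAt (fun c => lmu c k) a := by
    intro k
    unfold lmu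
    have h1 := LG_cont (s := k) ha (by positivity)
    have h2 : ContinuousAt (fun c : ℝ => LG (c + 1) k) a :=
      ContinuousAt.comp (f := fun c : ℝ => c + 1) (g := fun c => LG c k)
        (LG_cont (by linarith) (by positivity)) (by fun_prop)
    exact ((continuousAt_const.add h1).sub continuousAt_const).sub h2
  refine good_limit2 (g := fun N k => lmu (r N) k - lC (r N)) (θ := fun N => |lC (r N)|)
    (fun N => ?_) (hC.tendsto.comp hrt).abs
    (fun k => ((hL k).tendsto.comp hrt).sub (hC.tendsto.comp hrt))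
  refine good_rat (hr0 N) (p := ⌊a * (N + 1 : ℕ)⌋₊ + 1) (q := N + 1) (by omega) ?_
  simp only [hr]
  rw [div_mul_cancel₀ _ (hN N).ne']

end Pool.Agent.P.MP_1ac4dc_an
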