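import Mathlib
import Pool.Agent.P.MP_1ac4dc_an.Main

namespace Pool.Agent.P.MP_1ac4dc_an

open Finset Filter Topology

theorem cos_re' (z : ℂ) : (Complex.cos z).re = Real.cos z.re * Real.cosh z.im := by
  rw [Complex.cos_eq]
  simp [← Complex.ofReal_cos, ← Complex.ofReal_cosh, ← Complex.ofReal_sin, ← Complex.ofReal_sinh]

theorem cos_im' (z : ℂ) : (Complex.cos z).im = - (Real.sin z.re * Real.sinh z.im) := by
  rw [Complex.cos_eq]
  simp [← Complex.ofReal_cos, ← Complex.ofReal_cosh, ← Complex.ofReal_sin, ← Complex.ofReal_sinh]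

theorem summable_gcc {g : ℕ → ℝ} {θ : ℝ} (hg : Good g θ) (t : ℂ) :
    Summable (fun k => (g k : ℂ) * cc t k) := by
  refine Summable.of_norm_bounded ((summable_cc t).mul_left θ) (fun k => ?_)
  rw [norm_mul, Complex.norm_real, Real.norm_eq_abs]
  exact mul_le_mul_of_nonneg_right (hg.bound k) (norm_nonneg _)

/-- real linear functional bound -/
theorem good_fun {g : ℕ → ℝ} {θ : ℝ} (hg : Good g θ) (t : ℂ) (α β B : ℝ)
    (hB : ∀ u : ℝ, 0 ≤ u → u ≤ 1 →
      |α * (Complex.cos (u * t)).re + β * (Complex.cos (u * t)).im| ≤ B) :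
    |α * (∑' k, (g k : ℂ) * cc t k).re + β * (∑' k, (g k : ℂ) * cc t k).im| ≤ θ * B := by
  have hre : Summable (fun k => |(cc t k).re|) :=
    Summable.of_nonneg_of_le (fun _ => abs_nonneg _) (fun k => Complex.abs_re_le_norm _)
      (summable_cc t)
  have him : Summable (fun k => |(cc t k).im|) :=
    Summable.of_nonneg_of_le (fun _ => abs_nonneg _) (fun k => Complex.abs_im_le_norm _)
      (summable_cc t)
  have hs : Summable (fun k => |α * (cc t k).re + β * (cc t k).im|) :=
    ((hre.of_abs.mul_left α).add (him.of_abs.mul_left β)).abs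
  have h1 := hg (fun k => α * (cc t k).re + β * (cc t k).im) B hs (by
    intro u hu0 hu1
    have h2 := ((Complex.hasSum_re (hasSum_cc t u)).mul_left α).add
      ((Complex.hasSum_im (hasSum_cc t u)).mul_left β)
    simp only [Complex.re_ofReal_mul, Complex.im_ofReal_mul] at h2
    have h3 : (fun k => u ^ (2 * k) * (α * (cc t k).re + β * (cc t k).im)) =
        fun k => α * (u ^ (2 * k) * (cc t k).re) + β * (u ^ (2 * k) * (cc t k).im) := by
      ext k; ring
    rw [h3, h2.tsum_eq]
    exact hB u hu0 hu1)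
  have h4 := ((Complex.hasSum_re (summable_gcc hg t).hasSum).mul_left α).add
      ((Complex.hasSum_im (summable_gcc hg t).hasSum).mul_left β)
  simp only [Complex.re_ofReal_mul, Complex.im_ofReal_mul] at h4
  have h5 : (fun k => g k * (α * (cc t k).re + β * (cc t k).im)) =
      fun k => α * (g k * (cc t k).re) + β * (g k * (cc t k).im) := by
    ext k; ring
  rw [h5, h4.tsum_eq] at h1
  exact h1

/-- perturbed cosine -/
noncomputable def UU (g : ℕ → ℝ) (t : ℂ) : ℂ := Complex.cos t + ∑' k, (g k : ℂ) * cc t k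

theorem key_nonreal {g : ℕ → ℝ} {θ : ℝ} (hg : Good g θ) (t : ℂ) (ht : t.im ≠ 0) :
    1 - θ ≤ Real.cos t.re / Real.cosh t.im * (UU g t).re
      + (- Real.sin t.re / Real.sinh t.im) * (UU g t).im := by
  have hc := Real.cosh_pos t.im
  have hs : Real.sinh t.im ≠ 0 := by simpa using ht
  have h := good_fun hg t (Real.cos t.re / Real.cosh t.im) (- Real.sin t.re / Real.sinh t.im) 1 (by
    intro u hu0 hu1
    rw [cos_re', cos_im', Complex.re_ofReal_mul, Complex.im_ofReal_mul]
    have a2 : Real.cosh (u * t.im) ≤ Real.cosh t.im := by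
      rw [Real.cosh_le_cosh, abs_mul, abs_of_nonneg hu0]
      nlinarith [abs_nonneg t.im]
    have a3 : |Real.sinh (u * t.im)| ≤ |Real.sinh t.im| := by
      rw [Real.abs_sinh, Real.abs_sinh, Real.sinh_le_sinh, abs_mul, abs_of_nonneg hu0]
      nlinarith [abs_nonneg t.im]
    have p1 : |Real.cosh (u * t.im) / Real.cosh t.im| ≤ 1 := by
      rw [abs_of_pos (div_pos (Real.cosh_pos _) hc), div_le_one hc]; exact a2
    have p2 : |Real.sinh (u * t.im) / Real.sinh t.im| ≤ 1 := by
      rw [abs_div, div_le_one (abs_pos.2 hs)]; exact a3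
    have e : Real.cos t.re / Real.cosh t.im * (Real.cos (u * t.re) * Real.cosh (u * t.im)) +
        -Real.sin t.re / Real.sinh t.im * -(Real.sin (u * t.re) * Real.sinh (u * t.im)) =
        Real.cos t.re * (Real.cos (u * t.re) * (Real.cosh (u * t.im) / Real.cosh t.im)) +
        Real.sin t.re * (Real.sin (u * t.re) * (Real.sinh (u * t.im) / Real.sinh t.im)) := by
      field_simp
    rw [e]
    generalize Real.cosh (u * t.im) / Real.cosh t.im = p at *
    generalize Real.sinh (u * t.im) / Real.sinh t.im = q at *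
    have s1 := Real.sin_sq_add_cos_sq t.re
    have s2 := Real.sin_sq_add_cos_sq (u * t.re)
    have p3 : p ^ 2 ≤ 1 := by rw [← sq_abs]; nlinarith [abs_nonneg p]
    have p4 : q ^ 2 ≤ 1 := by rw [← sq_abs]; nlinarith [abs_nonneg q]
    generalize Real.cos t.re = c1 at *
    generalize Real.sin t.re = d1 at *
    generalize Real.cos (u * t.re) = c2 at *
    generalize Real.sin (u * t.re) = d2 at *
    have p5 : (c2 * p) ^ 2 + (d2 * q) ^ 2 ≤ 1 := by
      rw [mul_pow, mul_pow]; nlinarith [sq_nonneg c2, sq_nonneg d2]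
    rw [abs_le]
    constructor
    · nlinarith [sq_nonneg (c1 + c2 * p), sq_nonneg (d1 + d2 * q)]
    · nlinarith [sq_nonneg (c1 - c2 * p), sq_nonneg (d1 - d2 * q)])
  unfold UU
  rw [Complex.add_re, Complex.add_im, cos_re', cos_im']
  have e : Real.cos t.re / Real.cosh t.im * (Real.cos t.re * Real.cosh t.im) +
      -Real.sin t.re / Real.sinh t.im * -(Real.sin t.re * Real.sinh t.im) = 1 := by
    field_simp
    rw [add_comm, Real.sin_sq_add_cos_sq]
  have := (abs_le.1 h).1
  linarith

theorem UU_real_im (g : ℕ → ℝ) (x : ℝ) : (UU g x).im = 0 := by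
  unfold UU
  have : ∀ k, (g k : ℂ) * cc x k
      = ((g k * ((-1) ^ k * x ^ (2 * k) / (Nat.factorial (2 * k) : ℝ)) : ℝ) : ℂ) := by
    intro k; unfold cc; push_cast; ring
  simp only [this]
  rw [← Complex.ofReal_tsum, ← Complex.ofReal_cos, ← Complex.ofReal_add, Complex.ofReal_im]

theorem UU_close {g : ℕ → ℝ} {θ : ℝ} (hg : Good g θ) (x : ℝ) :
    |(UU g x).re - Real.cos x| ≤ θ := by
  have h := good_fun hg x 1 0 1 (by
    intro u _ _
    rw [← Complex.ofReal_mul, ← Complex.ofReal_cos, Complex.ofReal_re, one_mul, zero_mul, add_zero]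
    exact Real.abs_cos_le_one _)
  unfold UU
  rw [Complex.add_re, ← Complex.ofReal_cos, Complex.ofReal_re]
  simpa using h

theorem UU_neg (g : ℕ → ℝ) (t : ℂ) : UU g (-t) = UU g t := by
  unfold UU cc
  simp [pow_mul]

theorem key_real {g : ℕ → ℝ} {θ : ℝ} (hg : Good g θ) (x : ℝ) {d : ℂ}
    (hd : HasDerivAt (UU g) d x) :
    1 - θ ≤ Real.cos x * (UU g x).re - Real.sin x * d.re := by
  have h1 : HasDerivAt (fun y : ℂ => UU g (x + y * Complex.I)) (d * Complex.I) ((0 : ℝ) : ℂ) := by
    have h0 : HasDerivAt (fun y : ℂ => (x : ℂ) + y * Complex.I) Complex.I ((0 : ℝ) : ℂ) := by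
      simpa using ((hasDerivAt_id ((0 : ℝ) : ℂ)).mul_const Complex.I).const_add (x : ℂ)
    exact HasDerivAt.comp_of_eq _ hd h0 (by simp)
  have h2 : HasDerivAt (fun y : ℝ => UU g (x + y * Complex.I)) (d * Complex.I) 0 :=
    h1.comp_ofReal
  have h3 : HasDerivAt (fun y : ℝ => (UU g (x + y * Complex.I)).im) d.re 0 := by
    have := Complex.imCLM.hasFDerivAt.comp_hasDerivAt (0 : ℝ) h2
    simpa [Function.comp_def] using this
  have h4 := h3.tendsto_slope_zero
  have h5 := (Real.hasDerivAt_sinh 0).tendsto_slope_zero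
  simp only [zero_add, Complex.ofReal_zero, zero_mul, add_zero, UU_real_im, sub_zero, smul_eq_mul,
    Real.sinh_zero, Real.cosh_zero] at h4 h5
  have h6 := h4.div h5 one_ne_zero
  have h7 : Tendsto (fun y : ℝ => (UU g (x + y * Complex.I)).re) (𝓝[≠] 0) (𝓝 (UU g x).re) := by
    have := (Complex.continuous_re.tendsto _).comp h2.continuousAt.tendsto
    simp only [Complex.ofReal_zero, zero_mul, add_zero] at this
    exact this.mono_left nhdsWithin_le_nhds
  have h8 : Tendsto (fun y : ℝ => Real.cos x / Real.cosh y) (𝓝[≠] 0) (𝓝 (Real.cos x / 1)) := by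
    refine Tendsto.div tendsto_const_nhds ?_ one_ne_zero
    have := Real.continuous_cosh.tendsto 0
    rw [Real.cosh_zero] at this
    exact this.mono_left nhdsWithin_le_nhds
  have h9 := (h8.mul h7).sub (h6.const_mul (Real.sin x))
  rw [div_one, div_one] at h9
  refine ge_of_tendsto h9 (eventually_nhdsWithin_of_forall fun y hy => ?_)
  have hy' : y ≠ 0 := hy
  have h10 := key_nonreal hg (x + y * Complex.I) (by simpa using hy')
  simp only [Complex.add_re, Complex.ofReal_re, Complex.mul_re, Complex.I_re, mul_zero,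
    Complex.ofReal_im, Complex.I_im, mul_one, sub_self, add_zero, Complex.add_im, Complex.mul_im,
    zero_add] at h10
  refine h10.trans (le_of_eq ?_)
  have hs : Real.sinh y ≠ 0 := by simpa using hy'
  simp only [Pi.div_apply]
  field_simp
  ring

theorem sin_ne_zero_mem {n : ℕ} {x : ℝ} (h1 : n * Real.pi < x) (h2 : x < (n + 1) * Real.pi) :
    Real.sin x ≠ 0 := by
  have h := Real.sin_pos_of_pos_of_lt_pi (x := x - n * Real.pi) (by linarith) (by linarith)
  intro h0
  rw [Real.sin_sub_nat_mul_pi, h0, mul_zero] at h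
  exact lt_irrefl _ h

theorem zeros_UU {g : ℕ → ℝ} {θ : ℝ} (hg : Good g θ) (hθ : θ < 1)
    (hd : Differentiable ℂ (UU g)) :
    ∃ t : ℕ → ℝ, (∀ n : ℕ, |t n - (n + 1 / 2) * Real.pi| ≤ Real.arcsin θ) ∧
      (∀ n, 0 < t n) ∧
      (∀ z : ℂ, UU g z = 0 ↔ ∃ n, z ^ 2 = (t n : ℂ) ^ 2) ∧
      ∀ n, deriv (UU g) (t n) ≠ 0 := by
  set V : ℝ → ℝ := fun x => (UU g x).re with hV
  have hVd : ∀ x : ℝ, HasDerivAt V (deriv (UU g) x).re x :=
    fun x => (hd x).hasDerivAt.real_of_complex
  have hk : ∀ x : ℝ, 0 < Real.cos x * V x - Real.sin x * (deriv (UU g) x).re := by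
    intro x
    have := key_real hg x (hd x).hasDerivAt
    simp only [hV]
    linarith
  have hVc : Continuous V := continuous_iff_continuousAt.2 fun x => (hVd x).continuousAt
  have hsign : ∀ n : ℕ, 0 < (-1) ^ n * V (n * Real.pi) := by
    intro n
    have := hk (n * Real.pi)
    rwa [Real.sin_nat_mul_pi, zero_mul, sub_zero, Real.cos_nat_mul_pi] at this
  have hex : ∀ n : ℕ, ∃ x : ℝ, n * Real.pi < x ∧ x < (n + 1) * Real.pi ∧ V x = 0 := by
    intro n
    have h1 := hsign n
    have h2 := hsign (n + 1)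
    push_cast at h2
    have hle : n * Real.pi ≤ (n + 1) * Real.pi := by nlinarith [Real.pi_pos]
    have hc : ContinuousOn (fun x => (-1 : ℝ) ^ n * V x) (Set.Icc (n * Real.pi) ((n + 1) * Real.pi)) :=
      (continuous_const.mul hVc).continuousOn
    have h3 : (0 : ℝ) ∈ Set.Ioo ((-1 : ℝ) ^ n * V ((n + 1) * Real.pi)) ((-1) ^ n * V (n * Real.pi)) := by
      refine ⟨?_, h1⟩
      rw [pow_succ] at h2
      linarith
    obtain ⟨x, hx, hx0⟩ := intermediate_value_Ioo' hle hc h3
    refine ⟨x, hx.1, hx.2, ?_⟩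
    exact (mul_eq_zero.1 hx0).resolve_left (pow_ne_zero _ (by norm_num))
  have hanti : ∀ n : ℕ, StrictAntiOn (fun x => V x / Real.sin x)
      (Set.Ioo (n * Real.pi) ((n + 1) * Real.pi)) := by
    intro n
    have hq : ∀ x ∈ Set.Ioo (n * Real.pi) ((n + 1) * Real.pi), HasDerivAt (fun x => V x / Real.sin x)
        (((deriv (UU g) x).re * Real.sin x - V x * Real.cos x) / Real.sin x ^ 2) x :=
      fun x hx => (hVd x).div (Real.hasDerivAt_sin x) (sin_ne_zero_mem hx.1 hx.2)
    refine strictAntiOn_of_deriv_neg (convex_Ioo _ _)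
      (fun x hx => (hq x hx).continuousAt.continuousWithinAt) fun x hx => ?_
    rw [interior_Ioo] at hx
    rw [(hq x hx).deriv]
    have h1 := hk x
    have h2 : 0 < Real.sin x ^ 2 := by
      have := sin_ne_zero_mem hx.1 hx.2
      positivity
    apply div_neg_of_neg_of_pos _ h2
    linarith
  choose t ht1 ht2 ht3 using hex
  have hzero : ∀ x : ℝ, V x = 0 → UU g x = 0 := fun x hx =>
    Complex.ext (by simpa [hV] using hx) (by simpa using UU_real_im g x)
  have hpos : ∀ n, 0 < t n := fun n =>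
    lt_of_le_of_lt (by have := Real.pi_pos; positivity) (ht1 n)
  refine ⟨t, fun n => ?_, hpos, fun z => ⟨fun hz => ?_, ?_⟩, fun n h0 => ?_⟩
  · have h1 := UU_close hg (t n)
    have h2 : (UU g (t n)).re = 0 := ht3 n
    rw [h2, zero_sub, abs_neg] at h1
    set δ := t n - (n + 1 / 2) * Real.pi with hδ
    have h3 : t n = (δ + Real.pi / 2) + n * Real.pi := by rw [hδ]; ring
    rw [h3, Real.cos_add_nat_mul_pi, abs_mul, abs_pow, abs_neg, abs_one, one_pow, one_mul,
      Real.cos_add_pi_div_two, abs_neg] at h1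
    have h4 : |δ| ≤ Real.pi / 2 := by
      rw [abs_le]
      constructor
      · have := ht1 n; rw [hδ]; linarith
      · have := ht2 n; rw [hδ]; linarith
    have h5 : Real.sin |δ| ≤ θ := by
      rcases abs_choice δ with h | h
      · rw [h]; exact (le_abs_self _).trans h1
      · rw [h, Real.sin_neg]; exact (neg_le_abs _).trans h1
    rw [Real.le_arcsin_iff_sin_le ⟨by linarith [abs_nonneg δ, Real.pi_pos], h4⟩
      ⟨by linarith [hg.nonneg], hθ.le⟩]
    exact h5
  · have him : z.im = 0 := by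
      by_contra h
      have := key_nonreal hg z h
      rw [hz] at this
      simp at this
      linarith
    have hz' : z = (z.re : ℂ) := Complex.ext (by simp) (by simp [him])
    have hx : V |z.re| = 0 := by
      rcases abs_choice z.re with h | h
      · rw [h]; simp only [hV]; rw [← hz', hz]; simp
      · rw [h]; simp only [hV]; rw [Complex.ofReal_neg, UU_neg, ← hz', hz]; simp
    set x := |z.re| with hxd
    have hx0 : 0 ≤ x := abs_nonneg _
    set n := ⌊x / Real.pi⌋₊ with hn
    have a1 : n * Real.pi ≤ x := by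
      rw [← le_div_iff₀ Real.pi_pos]
      exact Nat.floor_le (div_nonneg hx0 Real.pi_pos.le)
    have a2 : x < (n + 1) * Real.pi := by
      rw [← div_lt_iff₀ Real.pi_pos]
      exact Nat.lt_floor_add_one _
    have a3 : n * Real.pi < x := by
      refine lt_of_le_of_ne a1 fun h => ?_
      have := hsign n
      rw [h, hx, mul_zero] at this
      exact lt_irrefl _ this
    have a4 : x = t n := (hanti n).injOn ⟨a3, a2⟩ ⟨ht1 n, ht2 n⟩ (by simp only [hx, ht3 n, zero_div])
    refine ⟨n, ?_⟩
    rw [← a4, hz', ← Complex.ofReal_pow, ← Complex.ofReal_pow, hxd, sq_abs]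
  · rintro ⟨n, hn⟩
    rcases sq_eq_sq_iff_eq_or_eq_neg.1 hn with h | h
    · rw [h]; exact hzero _ (ht3 n)
    · rw [h, UU_neg]; exact hzero _ (ht3 n)
  · have := hk (t n)
    rw [h0, ht3 n] at this
    simp at this

end Pool.Agent.P.MP_1ac4dc_an
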