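import Mathlib
import Pool.Agent.P.MP_1ac4dc_an.RMu
import Pool.Agent.P.MP_1ac4dc_an.RZero

namespace Pool.Agent.P.MP_1ac4dc_an

open Finset Filter Topology

noncomputable def co (a : ℝ) (k : ℕ) : ℝ :=
  Real.Gamma (a * k + 1) / (Real.Gamma ((a + 1) * k + 1) * (Nat.factorial k : ℝ))

noncomputable def FF (a : ℝ) (z : ℂ) : ℂ := ∑' k : ℕ, (co a k : ℂ) * z ^ k

noncomputable def ka (a : ℝ) : ℝ := (a + 1) ^ (a + 1) / (4 * a ^ a)

theorem ka_pos {a : ℝ} (ha : 0 < a) : 0 < ka a := by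
  unfold ka; positivity

theorem exp_lmu {a : ℝ} (ha : 0 < a) (k : ℕ) :
    Real.exp (lmu a k) = co a k * (Nat.factorial (2 * k) : ℝ) * ka a ^ k := by
  have g1 : 0 < Real.Gamma (a * k + 1) := Real.Gamma_pos_of_pos (by positivity)
  have g2 : 0 < Real.Gamma ((a + 1) * k + 1) := Real.Gamma_pos_of_pos (by positivity)
  have hk := ka_pos ha
  have hco : 0 < co a k := by unfold co; positivity
  rw [← Real.exp_log (by positivity : 0 < co a k * (Nat.factorial (2 * k) : ℝ) * ka a ^ k)]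
  congr 1
  have e1 : Real.Gamma (2 * (k : ℝ) + 1) = (Nat.factorial (2 * k) : ℝ) := by
    rw [← Real.Gamma_nat_eq_factorial]; push_cast; rfl
  have e2 : Real.Gamma (1 * (k : ℝ) + 1) = (Nat.factorial k : ℝ) := by
    rw [one_mul, Real.Gamma_nat_eq_factorial]
  have e3 : Real.log (ka a) = (a + 1) * Real.log (a + 1) - (2 * Real.log 2 + a * Real.log a) := by
    unfold ka
    rw [Real.log_div (by positivity) (by positivity), Real.log_mul (by norm_num) (by positivity),
      Real.log_rpow (by linarith), Real.log_rpow ha, show (4 : ℝ) = 2 ^ 2 by norm_num,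
      Real.log_pow]
    push_cast
    ring
  rw [Real.log_mul (by positivity) (by positivity), Real.log_mul (by positivity) (by positivity),
    Real.log_pow, e3]
  unfold co lmu LG
  rw [Real.log_div (by positivity) (by positivity), Real.log_mul (by positivity) (by positivity),
    e1, e2, Real.log_one]
  ring

theorem exp_lC {a : ℝ} (ha : 0 < a) : Real.exp (lC a) = √(2 * a / (a + 1)) := by
  rw [Real.sqrt_eq_rpow, Real.rpow_def_of_pos (by positivity),
    Real.log_div (by positivity) (by positivity), Real.log_mul (by norm_num) ha.ne']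
  unfold lC
  congr 1
  ring

theorem exp_abs_eq (x : ℝ) : Real.exp |x| = max (Real.exp x) (Real.exp x)⁻¹ := by
  rw [← Real.exp_neg]
  rcases le_total 0 x with h | h
  · rw [abs_of_nonneg h, max_eq_left (Real.exp_le_exp.2 (by linarith))]
  · rw [abs_of_nonpos h, max_eq_right (Real.exp_le_exp.2 (by linarith))]

theorem theta_lt {a : ℝ} (ha : 1 / 7 < a) :
    max √(2 * a / (a + 1)) (√(2 * a / (a + 1)))⁻¹ - 1 < 1 := by
  have ha0 : 0 < a := by linarith
  have h1 : √(2 * a / (a + 1)) < 2 := by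
    rw [Real.sqrt_lt' two_pos, div_lt_iff₀ (by linarith)]
    linarith
  have h2 : 1 / 2 < √(2 * a / (a + 1)) := by
    rw [Real.lt_sqrt (by norm_num), lt_div_iff₀ (by linarith)]
    linarith
  have h3 : (√(2 * a / (a + 1)))⁻¹ < 2 := by
    rw [inv_lt_comm₀ (by linarith) two_pos]
    linarith
  have := max_lt h1 h3
  linarith

noncomputable def gg (a : ℝ) (k : ℕ) : ℝ := Real.exp (lmu a k - lC a) - 1

theorem good_gg {a : ℝ} (ha : 0 < a) :
    Good (gg a) (max √(2 * a / (a + 1)) (√(2 * a / (a + 1)))⁻¹ - 1) := by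
  have h := good_exp (good_real ha)
  rw [exp_abs_eq, exp_lC ha] at h
  exact h

theorem term_eq {a : ℝ} (ha : 0 < a) (t : ℂ) (k : ℕ) :
    (co a k : ℂ) * (-(ka a : ℂ) * t ^ 2) ^ k
      = (Real.exp (lC a) : ℂ) * (cc t k + (gg a k : ℂ) * cc t k) := by
  have h1 : Real.exp (lC a) * (1 + gg a k) = co a k * (Nat.factorial (2 * k) : ℝ) * ka a ^ k := by
    rw [← exp_lmu ha, gg, add_sub_cancel, ← Real.exp_add, add_sub_cancel]
  have h2 := congrArg (fun x : ℝ => (x : ℂ)) h1
  simp only [Complex.ofReal_mul, Complex.ofReal_add, Complex.ofReal_one, Complex.ofReal_pow,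
    Complex.ofReal_natCast] at h2
  have a1 : (Nat.factorial (2 * k) : ℂ) ≠ 0 := by exact_mod_cast (Nat.factorial_ne_zero _)
  rw [show (Real.exp (lC a) : ℂ) * (cc t k + (gg a k : ℂ) * cc t k)
    = ((Real.exp (lC a) : ℂ) * (1 + (gg a k : ℂ))) * cc t k by ring, h2]
  unfold cc
  rw [pow_mul, show -(ka a : ℂ) * t ^ 2 = (-1) * (ka a : ℂ) * t ^ 2 by ring, mul_pow, mul_pow]
  field_simp

theorem FF_eq {a : ℝ} (ha : 0 < a) (t : ℂ) :
    FF a (-(ka a : ℂ) * t ^ 2) = (Real.exp (lC a) : ℂ) * UU (gg a) t := by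
  have hcos : HasSum (fun k => cc t k) (Complex.cos t) := by
    simpa using hasSum_cc t 1
  have h := (hcos.add (summable_gcc (good_gg ha) t).hasSum).mul_left (Real.exp (lC a) : ℂ)
  unfold FF UU
  simp only [term_eq ha]
  exact h.tsum_eq

theorem FF_summable {a : ℝ} (ha : 0 < a) (z : ℂ) : Summable (fun k => (co a k : ℂ) * z ^ k) := by
  have hk' : (ka a : ℂ) ≠ 0 := by exact_mod_cast (ka_pos ha).ne'
  obtain ⟨t, ht⟩ := IsAlgClosed.exists_pow_nat_eq (- z / (ka a : ℂ)) (n := 2) (by norm_num)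
  have hzt : z = - (ka a : ℂ) * t ^ 2 := by
    rw [ht]; field_simp
  have hcos : HasSum (fun k => cc t k) (Complex.cos t) := by
    simpa using hasSum_cc t 1
  have h := (hcos.add (summable_gcc (good_gg ha) t).hasSum).mul_left (Real.exp (lC a) : ℂ)
  rw [hzt]
  simp only [term_eq ha]
  exact h.summable

theorem FF_diff {a : ℝ} (ha : 0 < a) : Differentiable ℂ (FF a) := by
  intro z
  set R : ℝ := ‖z‖ + 1 with hR
  have hs := summable_norm_iff.2 (FF_summable ha (R : ℂ))
  have h := Complex.differentiableOn_tsum_of_summable_norm (U := Metric.ball (0 : ℂ) R)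
    (F := fun k w => (co a k : ℂ) * w ^ k) hs (fun k => by fun_prop) Metric.isOpen_ball
    (fun k w hw => by
      rw [norm_mul, norm_mul, norm_pow, norm_pow]
      have h1 : ‖w‖ ≤ ‖(R : ℂ)‖ := by
        rw [Complex.norm_real, Real.norm_eq_abs]
        exact (mem_ball_zero_iff.1 hw).le.trans (le_abs_self _)
      gcongr)
  exact h.differentiableAt (Metric.isOpen_ball.mem_nhds (mem_ball_zero_iff.2 (by linarith)))

theorem real_main {a : ℝ} (ha : 1 / 7 < a) :
    ∃ t : ℕ → ℝ,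
      (∀ n : ℕ, |t n - (n + 1 / 2) * Real.pi| ≤
        Real.arcsin (max √(2 * a / (a + 1)) (√(2 * a / (a + 1)))⁻¹ - 1)) ∧
      (∀ z : ℂ, FF a z = 0 ↔ ∃ n, z = ((-(ka a * t n ^ 2) : ℝ) : ℂ)) ∧
      ∀ n, deriv (FF a) ((-(ka a * t n ^ 2) : ℝ) : ℂ) ≠ 0 := by
  have ha0 : 0 < a := by linarith
  have hC : (Real.exp (lC a) : ℂ) ≠ 0 := by exact_mod_cast (Real.exp_pos _).ne'
  have hk' : (ka a : ℂ) ≠ 0 := by exact_mod_cast (ka_pos ha0).ne'
  have hU : UU (gg a) = fun t => (Real.exp (lC a) : ℂ)⁻¹ * FF a (-(ka a : ℂ) * t ^ 2) := by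
    ext t
    rw [FF_eq ha0]
    field_simp
  have hder : ∀ t : ℂ, HasDerivAt (UU (gg a)) ((Real.exp (lC a) : ℂ)⁻¹ *
      (deriv (FF a) (-(ka a : ℂ) * t ^ 2) * (-(ka a : ℂ) * (2 * t)))) t := by
    intro t
    rw [hU]
    have h0 : HasDerivAt (fun t : ℂ => -(ka a : ℂ) * t ^ 2) (-(ka a : ℂ) * (2 * t)) t := by
      simpa using (hasDerivAt_pow 2 t).const_mul (-(ka a : ℂ))
    exact ((FF_diff ha0 _).hasDerivAt.comp t h0).const_mul _
  obtain ⟨t, h1, -, h3, h4⟩ := zeros_UU (good_gg ha0) (theta_lt ha)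
    (fun t => (hder t).differentiableAt)
  refine ⟨t, h1, fun z => ?_, fun n h0 => ?_⟩
  · obtain ⟨s, hs⟩ := IsAlgClosed.exists_pow_nat_eq (- z / (ka a : ℂ)) (n := 2) (by norm_num)
    have hzt : z = - (ka a : ℂ) * s ^ 2 := by
      rw [hs]; field_simp
    rw [hzt, FF_eq ha0, mul_eq_zero, or_iff_right hC, h3]
    refine exists_congr fun n => ?_
    push_cast
    rw [neg_mul, neg_inj, mul_right_inj' hk']
  · apply h4 n
    rw [(hder _).deriv]
    push_cast at h0
    rw [neg_mul, h0]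
    simp

end Pool.Agent.P.MP_1ac4dc_an
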