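import Pool.Agent.P.MP_1ac4dc_an.RMain

theorem Pool.Agent.P.MP_1ac4dc_an.VariantRealParameter.result (a : ℝ) (ha : 1 / 7 < a) (f : ℂ → ℂ)
    (hf : ∀ z : ℂ, f z = ∑' k : ℕ, ((Real.Gamma (a * k + 1) /
      (Real.Gamma ((a + 1) * k + 1) * (Nat.factorial k : ℝ)) : ℝ) : ℂ) * z ^ k) :
    ∃ t : ℕ → ℝ,
      (∀ n : ℕ, |t n - (n + 1 / 2) * Real.pi| ≤
        Real.arcsin (max √(2 * a / (a + 1)) (√(2 * a / (a + 1)))⁻¹ - 1)) ∧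
      (∀ z : ℂ, f z = 0 ↔ ∃ n, z = ((-((a + 1) ^ (a + 1) / (4 * a ^ a) * t n ^ 2) : ℝ) : ℂ)) ∧
      ∀ n, deriv f ((-((a + 1) ^ (a + 1) / (4 * a ^ a) * t n ^ 2) : ℝ) : ℂ) ≠ 0 := by
  have h : f = Pool.Agent.P.MP_1ac4dc_an.FF a := funext hf
  rw [h]
  exact Pool.Agent.P.MP_1ac4dc_an.real_main ha
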